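import Pool.Agent.Helper69.EK.LoopL

set_option autoImplicit false

/-!
# One cycle: the numerical conditions
-/

namespace Pool.Agent.Helper69.EK

open Set Filter Topology Pool.Agent.Helper6K9.ES
open Pool.Agent.Helper6K9.EH (Prof Fam eX eY dst pt Tr mkFam Pv Shf S_PROF S_FLOW)
open scoped ContDiff

namespace NumL

open LoopL

/-- `x = i + 8` -/
noncomputable def xx (i : ℕ) : ℝ := (i : ℝ) + 8
/-- `exp √x` -/
noncomputable def EE (i : ℕ) : ℝ := Real.exp √(xx i)
/-- `2 ^ (-i/2)` -/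
noncomputable def sq (i : ℕ) : ℝ := √(1 / 2 ^ i)
/-- the small quantity -/
noncomputable def yy (i : ℕ) : ℝ := xx i ^ 2 * EE i ^ 2 * sq i

theorem xx_ge (i : ℕ) : 8 ≤ xx i := by
  unfold xx
  have : (0 : ℝ) ≤ (i : ℝ) := Nat.cast_nonneg _
  linarith

theorem EE_ge (i : ℕ) : 1 ≤ EE i := Real.one_le_exp (Real.sqrt_nonneg _)

theorem sq_pos (i : ℕ) : 0 < sq i := Real.sqrt_pos.2 (by positivity)

theorem sq_sq (i : ℕ) : sq i ^ 2 = 1 / 2 ^ i := Real.sq_sqrt (by positivity)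

theorem sq_le (i : ℕ) : sq i ≤ 1 := by
  unfold sq
  have h : (1 : ℝ) / 2 ^ i ≤ 1 := by
    rw [div_le_one (by positivity)]
    exact one_le_pow₀ (by norm_num)
  calc √(1 / 2 ^ i) ≤ √1 := Real.sqrt_le_sqrt h
    _ = 1 := Real.sqrt_one

theorem sq_eq (i : ℕ) : sq i = 16 * (Real.exp (Real.log 2 / 2 * xx i))⁻¹ := by
  have h1 : sq i = √((16 * (Real.exp (Real.log 2 / 2 * xx i))⁻¹) ^ 2) := by
    unfold sq
    congr 1
    rw [mul_pow, inv_pow, ← Real.exp_nat_mul]
    have e1 : ((2 : ℕ) : ℝ) * (Real.log 2 / 2 * xx i) = (i : ℕ) * Real.log 2 + (8 : ℕ) * Real.log 2 := by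
      unfold xx
      push_cast
      ring
    rw [e1, Real.exp_add, Real.exp_nat_mul, Real.exp_nat_mul, Real.exp_log (by norm_num)]
    field_simp
    norm_num
  rw [h1]
  exact Real.sqrt_sq (by positivity)

theorem ev_y (A : ℝ) {c : ℝ} (hc : 0 < c) : ∀ᶠ i : ℕ in atTop, A * yy i ≤ c := by
  have hx : Tendsto xx atTop atTop := by
    unfold xx
    exact tendsto_atTop_add_const_right _ _ tendsto_natCast_atTop_atTop
  have h := hx.eventually (key (A * 16) hc 2 2 (θ := Real.log 2 / 2)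
    (by have := Real.log_pos (show (1 : ℝ) < 2 by norm_num); positivity))
  refine h.mono fun i hi => ?_
  have he := Real.exp_pos (Real.log 2 / 2 * xx i)
  have e1 : A * yy i = (A * 16 * (xx i ^ 2 * Real.exp ((2 : ℕ) * √(xx i)))) /
      Real.exp (Real.log 2 / 2 * xx i) := by
    unfold yy EE
    rw [sq_eq, Real.exp_nat_mul]
    field_simp
  rw [e1, div_le_iff₀ he]
  exact hi

theorem mono3 (i a b c : ℕ) (ha : a ≤ 2) (hb : b ≤ 2) (hc : 1 ≤ c) :
    xx i ^ a * EE i ^ b * sq i ^ c ≤ yy i := by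
  have h1 := xx_ge i
  have h2 := EE_ge i
  have h3 := sq_pos i
  have h4 := sq_le i
  have e1 : xx i ^ a ≤ xx i ^ 2 := pow_le_pow_right₀ (by linarith) ha
  have e2 : EE i ^ b ≤ EE i ^ 2 := pow_le_pow_right₀ h2 hb
  have e3 : sq i ^ c ≤ sq i := by
    have := pow_le_pow_of_le_one h3.le h4 hc
    rwa [pow_one] at this
  unfold yy
  gcongr

theorem MMj {i j : ℕ} (h : j / 3 = i) : MM j = xx i := by
  unfold MM xx
  rw [h]

theorem eej {i j : ℕ} (h : j / 3 = i) : ee j = 1 / EE i := by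
  unfold ee EE
  rw [MMj h, Real.exp_neg, one_div]

theorem ddj {i j : ℕ} (h : j / 3 = i) : dd j = sq i ^ 2 / 512 := by
  unfold dd
  rw [h, sq_sq]
  field_simp

theorem ssj {u : ℝ} {i j : ℕ} (h : j / 3 = i) : ss u j = u / (64 * xx i ^ 2) := by
  unfold ss
  rw [MMj h]

theorem three (i : ℕ) : 3 * i / 3 = i := by omega

theorem n1 {a : ℝ} (h0 : 0 ≤ a) (h1 : a ≤ 1) : a ^ 2 ≤ a := by nlinarith

theorem n2 {a b : ℝ} (h0 : 0 ≤ a) (h1 : 1 ≤ b) : a ≤ b * a := by nlinarith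

theorem n3 {x : ℝ} (h : 8 ≤ x) : 64 ≤ x ^ 2 := by nlinarith

theorem n4 {u x : ℝ} (hu : 0 < u) (hx : 8 ≤ x) : u / (64 * x ^ 2) / (2 * u) ≤ 1 / 4 := by
  have h := n3 hx
  have h2 : 0 < x ^ 2 := by linarith
  rw [div_div, div_le_iff₀ (by positivity)]
  have h9 : 64 * u ≤ x ^ 2 * u := mul_le_mul_of_nonneg_right h hu.le
  nlinarith

theorem n5 {a C P : ℝ} (ha : a = C / (P - 3)) (hC : 1 ≤ C) (hP : 16 ≤ P) : 1 / a ≤ P := by
  rw [ha, one_div_div, div_le_iff₀ (by linarith)]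
  nlinarith

theorem n6 {C a b : ℝ} (hC : 0 < C) (ha : 0 < a) (hab : a ≤ b) : C * a ≤ 2 * C * b := by
  have h1 : C * a ≤ C * b := mul_le_mul_of_nonneg_left hab hC.le
  have h2 : 0 < C * b := mul_pos hC (by linarith)
  linarith

theorem n7 {C a : ℝ} (hC : 1 ≤ C) (ha : 0 ≤ a) : 2 * C * a ≤ 8 * C * a := by
  have h2 : 0 ≤ C * a := mul_nonneg (by linarith) ha
  linarith

theorem n8 {l r a : ℝ} (hl : 0 < l) (h : a < r / (4 * l)) (hr : 0 < r) : 0 < r - 2 * l * a := by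
  rw [lt_div_iff₀ (by positivity)] at h
  linarith

theorem num : S_NUM := by
  intro e j₀ H he hH m C₁ r₀ r₁ C₃ C₇ c₇ C₈ c₈ c₉ V₀ C ε₀ hC hC1 hC3 hC7 hC8 hc7 hc8 hc9 hr0 hr1
    hε0 hm1 hm2
  have hl := he.hl
  have hu : 0 < e.l * e.c := mul_pos hl he.prof.cpos
  set u := e.l * e.c with hudef
  have hdel : 0 < H (m - 1) - 7 / 8 := by linarith
  have hdel2 : 0 < r₀ - 2 * e.l * (1 - H (m - 1)) := by
    have h1 : 1 - H (m - 1) < r₀ / (4 * e.l) := by linarith
    exact n8 hl h1 hr0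
  have hV₀ : ∀ᶠ i : ℕ in atTop, V₀ ≤ (2 : ℝ) ^ i - 3 := by
    have h1 : Tendsto (fun i : ℕ => (2 : ℝ) ^ i - 3) atTop atTop := by
      refine tendsto_atTop_add_const_right _ _ ?_
      exact tendsto_pow_atTop_atTop_of_one_lt (by norm_num)
    exact h1.eventually (eventually_ge_atTop V₀)
  have hxinv : ∀ A c : ℝ, 0 < c → ∀ᶠ i : ℕ in atTop, A * (1 / xx i ^ 2) ≤ c := by
    intro A c hc
    have hx : Tendsto xx atTop atTop := by
      unfold xx
      exact tendsto_atTop_add_const_right _ _ tendsto_natCast_atTop_atTop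
    have h1 : Tendsto (fun i : ℕ => A * (1 / xx i ^ 2)) atTop (𝓝 (A * 0)) := by
      refine Tendsto.const_mul A ?_
      simp only [one_div]
      refine tendsto_inv_atTop_zero.comp ?_
      exact (tendsto_pow_atTop (by norm_num)).comp hx
    rw [mul_zero] at h1
    exact (h1.eventually (gt_mem_nhds hc)).mono fun j hj => le_of_lt hj
  set D : ℝ := C₃ * C₃ * (2 * C) ^ (e.κ + 3) with hD
  have hD0 : 0 < D := by positivity
  set B : ℝ := 8 * C₈ * C₁ * C with hB
  have hB0 : 0 < B := by positivity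
  filter_upwards [eventually_ge_atTop 4, hV₀,
    ev_y D (c := 1 / 4) (by norm_num),
    ev_y (D * 512 ^ (e.κ + 1)) (c := c₉ / 2) (by positivity),
    ev_y B (c := 1 / 4) (by norm_num),
    ev_y (C₃ * (√(2 * C) * (2 * C₈) + 2 * C)) (c := 1 / 2) (by norm_num),
    ev_y (16 * (C₃ * (√(2 * C) * (2 * C₈) + 2 * C))) hc8,
    ev_y (C₃ * (2 * C)) (c := r₁ / 2) (by positivity),
    ev_y (4 / e.l * B + C₃ * B + (m + 1) * (B + D) + C₃ * C₃ * (2 * C)) (c := 1 / 96) (by norm_num),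
    ev_y (C₁ * (2 * C) * 64) (c := c₇ * u) (by positivity),
    hxinv (C₇ * (u / 64)) ((H (m - 1) - 7 / 8) / 2) (by positivity),
    hxinv (C₇ * (u / 64)) (1 / 8) (by norm_num),
    hxinv (2 * e.l * (C₇ * (u / 64)) + C₇ * (u / 64)) (r₀ - 2 * e.l * (1 - H (m - 1))) hdel2,
    ev_y (2 * C) hε0,
    ev_y (C + 4 * C₈ * C) hε0] with i h4 hV e1 e2 e3 e4 e5 e6 e7 e8 e9 e10 e11 e12 e13
  have hx := xx_ge i
  have hE := EE_ge i
  have hs0 := sq_pos i
  have hs1 := sq_le i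
  have hss := sq_sq i
  have h16 : (16 : ℝ) ≤ 2 ^ i := by
    calc (16 : ℝ) = 2 ^ 4 := by norm_num
      _ ≤ 2 ^ i := pow_le_pow_right₀ (by norm_num) h4
  have hVp : 0 < (2 : ℝ) ^ i - 3 := by linarith
  have h2i : (0 : ℝ) < 2 ^ i := by positivity
  have hsqi : sq i ^ 2 * 2 ^ i = 1 := by rw [hss]; field_simp
  set x := xx i with hxdef
  set E := EE i with hEdef
  set s := sq i with hsdef
  set y := yy i with hydef
  set ε := C / ((2 : ℝ) ^ i - 3) with hεdef
  have hE0 : 0 < E := by linarith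
  have hx0 : 0 < x := by linarith
  have hεp : 0 < ε := by positivity
  have hε1 : ε ≤ 2 * C * s ^ 2 := by
    rw [hεdef, div_le_iff₀ hVp]
    have h1 : (2 : ℝ) ^ i ≤ 2 * ((2 : ℝ) ^ i - 3) := by linarith
    calc C = C * (s ^ 2 * 2 ^ i) := by rw [hsqi, mul_one]
      _ ≤ C * (s ^ 2 * (2 * ((2 : ℝ) ^ i - 3))) := by gcongr
      _ = 2 * C * s ^ 2 * ((2 : ℝ) ^ i - 3) := by ring
  have hεs : ε ≤ 2 * C * s := hε1.trans (by
    have : s ^ 2 ≤ s := n1 hs0.le hs1
    gcongr)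
  have hM : ∀ a b c : ℕ, a ≤ 2 → b ≤ 2 → 1 ≤ c → x ^ a * E ^ b * s ^ c ≤ y :=
    fun a b c ha hb hc => mono3 i a b c ha hb hc
  have hεy : ε ≤ 2 * C * y := by
    refine hε1.trans ?_
    have := hM 0 0 2 (by norm_num) (by norm_num) (by norm_num)
    rw [pow_zero, pow_zero, one_mul, one_mul] at this
    gcongr
  have heeI : ee (3 * i) = 1 / E := eej (three i)
  have h2E : 2 * C₈ / ee (3 * i) = 2 * C₈ * E := by rw [heeI]; field_simp
  have hEε : 2 * C₈ * E * (2 * (C₁ * ε)) ≤ B * (E * s ^ 2) := by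
    calc 2 * C₈ * E * (2 * (C₁ * ε)) ≤ 2 * C₈ * E * (2 * (C₁ * (2 * C * s ^ 2))) := by gcongr
      _ = B * (E * s ^ 2) := by rw [hB]; ring
  have hEs : E * s ^ 2 ≤ y := by
    have := hM 0 1 2 (by norm_num) (by norm_num) (by norm_num)
    rwa [pow_zero, pow_one, one_mul] at this
  have hxEs : x * (E * s ^ 2) ≤ y := by
    have := hM 1 1 2 (by norm_num) (by norm_num) (by norm_num)
    rwa [pow_one, pow_one, mul_assoc] at this
  have heej : ∀ j, j / 3 = i → ee j = 1 / E := fun j hj => eej hj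
  have hssj : ∀ j, j / 3 = i → ss u j = u / (64 * x ^ 2) := fun j hj => ssj hj
  have hddj : ∀ j, j / 3 = i → dd j = s ^ 2 / 512 := fun j hj => ddj hj
  have hqqj : ∀ j, j / 3 = i → qq j = s ^ 2 := by
    intro j hj
    unfold qq
    rw [hj, hss]
  have hEE' : ∀ i' : ℕ, i ≤ i' → ee (3 * i') = 1 / EE i' ∧ E ≤ EE i' := by
    intro i' hi'
    refine ⟨eej (three i'), ?_⟩
    rw [hEdef]
    unfold EE
    refine Real.exp_le_exp.2 (Real.sqrt_le_sqrt ?_)
    unfold xx
    have : (i : ℝ) ≤ i' := by exact_mod_cast hi'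
    linarith
  have hlog : Real.log (1 / ε) ≤ x := by
    have q1 : 1 / ε ≤ 2 ^ i := n5 hεdef hC h16
    have q2 := Real.log_le_log (by positivity) q1
    rw [Real.log_pow] at q2
    have q3 : Real.log 2 ≤ 1 := by
      have := Real.log_two_lt_d9
      linarith
    have q4 : (i : ℝ) * Real.log 2 ≤ (i : ℝ) * 1 := by gcongr
    have q5 : x = (i : ℝ) + 8 := rfl
    linarith
  clear_value x E s y ε D B
  refine ⟨fun n hn => ?_, hεy.trans e12, ?_, ?_⟩
  · have hn0 : (0 : ℝ) ≤ n := Nat.cast_nonneg _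
    have hnx : (n : ℝ) ≤ C₃ * x := hn.trans (mul_le_mul_of_nonneg_left hlog (by linarith))
    have hnε3 : C₃ * n * ε ^ (e.κ + 3) ≤ D * (x * (s ^ 2) ^ (e.κ + 3)) := by
      calc C₃ * n * ε ^ (e.κ + 3) ≤ C₃ * (C₃ * x) * (2 * C * s ^ 2) ^ (e.κ + 3) := by gcongr
        _ = D * (x * (s ^ 2) ^ (e.κ + 3)) := by rw [hD, mul_pow]; ring
    have hnε3y : C₃ * n * ε ^ (e.κ + 3) ≤ D * y := by
      refine hnε3.trans ?_
      have := hM 1 0 (2 * (e.κ + 3)) (by norm_num) (by norm_num) (by omega)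
      rw [pow_one, pow_zero, mul_one, pow_mul] at this
      gcongr
    have hnε : C₃ * n * ε ≤ C₃ * C₃ * (2 * C) * y := by
      have := hM 1 0 2 (by norm_num) (by norm_num) (by norm_num)
      rw [pow_one, pow_zero, mul_one] at this
      calc C₃ * n * ε ≤ C₃ * (C₃ * x) * (2 * C * s ^ 2) := by gcongr
        _ = C₃ * C₃ * (2 * C) * (x * s ^ 2) := by ring
        _ ≤ C₃ * C₃ * (2 * C) * y := by gcongr
    have hsq : √ε ≤ √(2 * C) * s := by
      have h1 : √ε ≤ √(2 * C * s ^ 2) := Real.sqrt_le_sqrt hε1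
      rw [Real.sqrt_mul (by positivity), Real.sqrt_sq hs0.le] at h1
      exact h1
    have hKn : C₃ * (√ε * (2 * C₈ * E) + ε) ≤ C₃ * (√(2 * C) * (2 * C₈) + 2 * C) * (E * s) := by
      have q1 : ε ≤ 2 * C * (E * s) := hεs.trans (by
        have : s ≤ E * s := n2 hs0.le hE
        gcongr)
      calc C₃ * (√ε * (2 * C₈ * E) + ε) ≤
          C₃ * ((√(2 * C) * s) * (2 * C₈ * E) + 2 * C * (E * s)) := by gcongr
        _ = C₃ * (√(2 * C) * (2 * C₈) + 2 * C) * (E * s) := by ring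
    have hEs1 : E * s ≤ y := by
      have := hM 0 1 1 (by norm_num) (by norm_num) (by norm_num)
      rwa [pow_zero, pow_one, pow_one, one_mul] at this
    have hEs2 : E * (E * s) ≤ y := by
      have := hM 0 2 1 (by norm_num) (by norm_num) (by norm_num)
      rwa [pow_zero, pow_one, one_mul, pow_two, mul_assoc] at this
    have hadj : ∀ j, j / 3 = i → aa e.κ j * dd j = (1 / E) * ((s ^ 2) ^ (e.κ + 1) / 512 ^ (e.κ + 1)) := by
      intro j hj
      unfold aa
      rw [heej j hj, hddj j hj, mul_assoc, ← pow_succ, div_pow]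
    refine ⟨hεp, h4, hV, hnε3y.trans e1, ?_, ?_, ?_, ?_, ?_, ?_, ?_, ?_, ?_, ?_, ?_, ?_⟩
    · -- n1
      intro j hj
      rw [hadj j hj]
      refine hnε3.trans ?_
      have q1 : D * 512 ^ (e.κ + 1) * (x * E * s ^ 4) ≤ c₉ / 2 := by
        refine le_trans ?_ e2
        have := hM 1 1 4 (by norm_num) (by norm_num) (by norm_num)
        rw [pow_one, pow_one] at this
        gcongr
      have q2 : D * (x * (s ^ 2) ^ (e.κ + 3)) =
          (D * 512 ^ (e.κ + 1) * (x * E * s ^ 4)) *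
            ((1 / E) * ((s ^ 2) ^ (e.κ + 1) / 512 ^ (e.κ + 1))) := by
        field_simp
        ring
      rw [q2]
      exact mul_le_mul_of_nonneg_right q1 (by positivity)
    · -- n2
      rw [h2E]
      refine hEε.trans (le_trans ?_ e3)
      gcongr
    · -- n3
      rw [h2E]
      refine hKn.trans (le_trans ?_ e4)
      gcongr
    · -- n3'
      intro j hj
      rw [h2E, heej j hj, mul_one_div, le_div_iff₀ hE0]
      calc 16 * (C₃ * (√ε * (2 * C₈ * E) + ε)) * E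
          ≤ 16 * (C₃ * (√(2 * C) * (2 * C₈) + 2 * C) * (E * s)) * E := by gcongr
        _ = 16 * (C₃ * (√(2 * C) * (2 * C₈) + 2 * C)) * (E * (E * s)) := by ring
        _ ≤ 16 * (C₃ * (√(2 * C) * (2 * C₈) + 2 * C)) * y := by gcongr
        _ ≤ c₈ := e5
    · -- n4
      calc C₃ * ε ≤ C₃ * (2 * C * y) := by gcongr
        _ = C₃ * (2 * C) * y := by ring
        _ ≤ r₁ / 2 := e6
    · -- n5
      intro j hj
      have hj1 : 1 ≤ j := by omega
      refine ⟨?_, tau_pos hj1, by linarith [tau_le8 j], ss_pos hu hj1, ee_pos hj1⟩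
      rw [hssj j hj]
      exact n4 hu hx
    · -- n6
      rw [h2E]
      have t1 : 4 / e.l * (2 * C₈ * E * (2 * (C₁ * ε))) ≤ 4 / e.l * B * y := by
        calc _ ≤ 4 / e.l * (B * y) := by
              have : 2 * C₈ * E * (2 * (C₁ * ε)) ≤ B * y := hEε.trans (by gcongr)
              gcongr
          _ = _ := by ring
      have t2 : n * (2 * C₈ * E * (2 * (C₁ * ε))) ≤ C₃ * B * y := by
        calc _ ≤ (C₃ * x) * (B * (E * s ^ 2)) := by gcongr
          _ = C₃ * B * (x * (E * s ^ 2)) := by ring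
          _ ≤ C₃ * B * y := by gcongr
      have t3 : (m + 1) * (2 * C₈ * E * (2 * (C₁ * ε)) + C₃ * n * ε ^ (e.κ + 3)) ≤
          (m + 1) * (B + D) * y := by
        have q1 : 2 * C₈ * E * (2 * (C₁ * ε)) ≤ B * y := hEε.trans (by gcongr)
        calc _ ≤ (m + 1) * (B * y + D * y) := by gcongr
          _ = _ := by ring
      calc _ ≤ 4 / e.l * B * y + C₃ * B * y + (m + 1) * (B + D) * y + C₃ * C₃ * (2 * C) * y :=
            add_le_add (add_le_add (add_le_add t1 t2) t3) hnε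
        _ = (4 / e.l * B + C₃ * B + (m + 1) * (B + D) + C₃ * C₃ * (2 * C)) * y := by ring
        _ ≤ 1 / 96 := e7
    · -- n7
      intro j hj
      rw [heej j hj, hssj j hj]
      have q1 : x ^ 2 * E * s ^ 2 ≤ y := by
        have := hM 2 1 2 (by norm_num) (by norm_num) (by norm_num)
        rwa [pow_one] at this
      have q2 : c₇ * (1 / E * (u / (64 * x ^ 2))) = c₇ * u / (64 * x ^ 2 * E) := by field_simp
      rw [q2, le_div_iff₀ (by positivity)]
      calc C₁ * ε * (64 * x ^ 2 * E) ≤ C₁ * (2 * C * s ^ 2) * (64 * x ^ 2 * E) := by gcongr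
        _ = C₁ * (2 * C) * 64 * (x ^ 2 * E * s ^ 2) := by ring
        _ ≤ C₁ * (2 * C) * 64 * y := by gcongr
        _ ≤ c₇ * u := e8
    · -- n8
      intro j hj
      rw [heej j hj, hssj j hj]
      have q1 : C₇ * (u / (64 * x ^ 2)) = C₇ * (u / 64) * (1 / x ^ 2) := by field_simp
      rw [q1]
      refine ⟨by linarith, e10, ?_⟩
      have q2 : C₇ * (1 / E * (u / (64 * x ^ 2))) ≤ C₇ * (u / 64) * (1 / x ^ 2) := by
        rw [← q1]
        have : 1 / E ≤ 1 := by rw [div_le_one hE0]; exact hE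
        have h9 : 1 / E * (u / (64 * x ^ 2)) ≤ 1 * (u / (64 * x ^ 2)) := by gcongr
        rw [one_mul] at h9
        gcongr
      have q3 : (2 * e.l * (C₇ * (u / 64)) + C₇ * (u / 64)) * (1 / x ^ 2) =
        2 * e.l * (C₇ * (u / 64) * (1 / x ^ 2)) + C₇ * (u / 64) * (1 / x ^ 2) := by ring
      linarith
    · -- n9
      intro j hj i' hi'
      obtain ⟨q0, hEE⟩ := hEE' i' hi'
      rw [heej j hj, q0]
      have hE' : 0 < EE i' := by linarith
      rw [div_div_eq_mul_div, div_one, div_div_eq_mul_div, div_one]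
      have : 0 < C₈ := by linarith
      exact n6 this hE0 hEE
    · -- n10
      intro i' hi'
      exact ee_pos (by omega)
    · -- n11
      intro j hj
      rw [hadj j hj]
      positivity
  · rw [h2E]
    refine le_trans ?_ e13
    have q1 : 1 / 2 * ε ≤ C * y := by linarith
    have q2 : 2 * C₈ * E * ε ≤ 4 * C₈ * C * y := by
      calc 2 * C₈ * E * ε ≤ 2 * C₈ * E * (2 * C * s ^ 2) := by gcongr
        _ = 4 * C₈ * C * (E * s ^ 2) := by ring
        _ ≤ 4 * C₈ * C * y := by gcongr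
    linarith
  · intro j hj
    rw [hqqj j hj]
    exact hε1.trans (n7 hC (by positivity))

end NumL

theorem num : S_NUM := NumL.num

end Pool.Agent.Helper69.EK
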