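import Pool.Agent.Helper69.EK.Stm
import Pool.Graph.R_pool_sql_team_seeded_1e53cb71.Helper6K9.EH.Ct

set_option autoImplicit false

/-!
# The theorem in adapted coordinates, all classes: assembly

Adapted from the library file `Helper6K9/EH/Ct`.
-/

namespace Pool.Agent.Helper69.EK

open Set Filter Topology Pool.Agent.Helper6K9.ES
open Pool.Agent.Helper6K9.EH (Prof Fam eX eY dst pt Tr mkFam Pv Shf S_PROF S_FLOW)
open Pool.Agent.Helper6K9.EH.CtL (gs gs_smooth gs_per gs_der inv_entries sol_of_tr)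
open scoped ContDiff

namespace CtL

theorem smk_mono {κ : ℕ} {F : E 1 → ℝ} {a b : ℝ} (h : Smk κ F a) (hab : a ≤ b) : Smk κ F b :=
  fun j hj p => (h j hj p).trans hab

theorem smk_of_per (κ : ℕ) {F : E 1 → ℝ} (hF : ContDiff ℝ ∞ F) (hp : Per F) :
    ∃ C : ℝ, 0 ≤ C ∧ Smk κ F C := by
  have h1 : ∀ j : ℕ, ∃ C : ℝ, 0 ≤ C ∧ ∀ p, ‖iteratedFDeriv ℝ j F p‖ ≤ C := by
    intro j
    have hc : Continuous (iteratedFDeriv ℝ j F) := hF.continuous_iteratedFDeriv (by exact_mod_cast le_top)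
    have hper : ∀ (p : E 1) (k : Fin (1 + 1) → ℤ) (l : ℤ),
        iteratedFDeriv ℝ j F (p.1 + (fun i => (k i : ℝ)), p.2 + l) = iteratedFDeriv ℝ j F p := by
      intro p k l
      have h2 : (fun q : E 1 => F (q + ((fun i => (k i : ℝ)), (l : ℝ)))) = F := by
        funext q
        exact hp q k l
      have h3 := iteratedFDeriv_comp_add_right (𝕜 := ℝ) (f := F) j
        (((fun i => (k i : ℝ)), (l : ℝ)) : E 1) p
      rw [h2] at h3
      exact h3.symm
    exact MolL.bdd_per _ hc hper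
  choose C hC0 hC using h1
  refine ⟨∑ j ∈ Finset.range (κ + 1), C j, Finset.sum_nonneg fun j _ => hC0 j, fun j hj p => ?_⟩
  refine (hC j p).trans ?_
  exact Finset.single_le_sum (f := C) (fun j _ => hC0 j) (Finset.mem_range.2 (Nat.lt_succ_of_le hj))

theorem smk_cmul {κ : ℕ} {F : E 1 → ℝ} {a : ℝ} (hF : ContDiff ℝ κ F) (h : Smk κ F a) {r : ℝ}
    (hr : 0 ≤ r) : Smk κ (fun p => r * F p) (r * a) := by
  intro j hj p
  have h1 := iteratedFDeriv_const_smul_apply (𝕜 := ℝ) (i := j) (a := r) (f := F) (x := p)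
    ((hF.contDiffAt).of_le (by exact_mod_cast hj))
  have e : (fun p => r * F p) = r • F := rfl
  rw [e, h1, norm_smul, Real.norm_of_nonneg hr]
  exact mul_le_mul_of_nonneg_left (h j hj p) hr

theorem smk_add {κ : ℕ} {F G : E 1 → ℝ} {a b : ℝ} (hF : ContDiff ℝ κ F) (hG : ContDiff ℝ κ G)
    (h : Smk κ F a) (h' : Smk κ G b) : Smk κ (fun p => F p + G p) (a + b) := by
  intro j hj p
  have h1 := iteratedFDeriv_add_apply (𝕜 := ℝ) (i := j) (f := F) (g := G) (x := p)
    ((hF.contDiffAt).of_le (by exact_mod_cast hj)) ((hG.contDiffAt).of_le (by exact_mod_cast hj))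
  have e : (fun p => F p + G p) = F + G := rfl
  rw [e, h1]
  exact (norm_add_le _ _).trans (add_le_add (h j hj p) (h' j hj p))

theorem small_of_smk {κ : ℕ} (hκ : 2 ≤ κ) {F : E 1 → ℝ} {a : ℝ} (h : Smk κ F a) : Small F a := by
  intro p
  have h0 := h 0 (by omega) p
  have h1 := h 1 (by omega) p
  have h2 := h 2 hκ p
  rw [norm_iteratedFDeriv_zero, Real.norm_eq_abs] at h0
  rw [norm_iteratedFDeriv_one] at h1
  have e2 : ‖fderiv ℝ (fderiv ℝ F) p‖ = ‖iteratedFDeriv ℝ 2 F p‖ := by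
    rw [← norm_iteratedFDeriv_one, norm_iteratedFDeriv_fderiv]
  exact ⟨h0, h1, e2 ▸ h2⟩

end CtL

open CtL

theorem ct (prof : S_PROF) (hom : S_HOM) (pot : S_POT) (env : S_ENV) (step : S_STEP)
    (iter : S_ITER) (flow : S_FLOW) (ave : S_AVE) (start : S_START) (ops : S_OPS) : S_CT := by
  intro κ A h ε hκ hε hA hh hav
  obtain ⟨ha, hd, hs⟩ := inv_entries hA
  set α : ℝ := 1 / A 0 0 with hα
  set γ : ℝ := A 0 0 / (A 0 0 * A 1 1 - A 0 1 ^ 2) with hγ
  set b : ℝ := -(A 0 1 / A 0 0) with hb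
  have α0 : 0 < α := by positivity
  have γ0 : 0 < γ := by positivity
  obtain ⟨k, c, hk⟩ := prof
  have hc1 : c ≤ 1 := by
    have h1 := hk.le_one (1 / 2)
    rw [hk.plat (1 / 2) (by norm_num)] at h1
    exact (le_abs_self c).trans h1
  -- the constant `l`
  obtain ⟨Cg, hCg, hgs⟩ := smk_of_per κ (gs_smooth hk) (gs_per hk)
  obtain ⟨l, l0, l1, l2⟩ : ∃ l : ℝ, 0 < l ∧ l ≤ 1 / 2 ∧ l ^ 2 / γ * Cg ≤ ε / 3 := by
    have h1 : Tendsto (fun l : ℝ => l ^ 2 / γ * Cg) (𝓝[>] 0) (𝓝 ((0 : ℝ) ^ 2 / γ * Cg)) := by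
      refine Tendsto.mono_left (Continuous.tendsto ?_ 0) nhdsWithin_le_nhds
      fun_prop
    have h2 : ∀ᶠ l : ℝ in 𝓝[>] 0, l ^ 2 / γ * Cg < ε / 3 := by
      refine h1.eventually (gt_mem_nhds ?_)
      simp
      exact hε
    have h3 : ∀ᶠ l : ℝ in 𝓝[>] 0, l < 1 / 2 :=
      mem_nhdsWithin_of_mem_nhds (gt_mem_nhds (by norm_num))
    have h4 : ∀ᶠ l : ℝ in 𝓝[>] 0, 0 < l := self_mem_nhdsWithin
    obtain ⟨l, h5, h6, h7⟩ := (h2.and (h3.and h4)).exists
    exact ⟨l, h7, h6.le, h5.le⟩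
  -- the potential
  have hu : 0 < l * c := mul_pos l0 hk.cpos
  have hu1 : l * c ≤ 1 := by nlinarith [hk.cpos]
  have hb2 : 0 < 1 / (16 * (1 + |b|) ^ 2) := by positivity
  obtain ⟨j₀, S, K, χ, ps, cb, hj0, hshp, hS, hSs, hSi, hK, hKp, hKs, hvan, htube⟩ :=
    pot κ b (l * c) (min (ε / 3) (1 / (16 * (1 + |b|) ^ 2))) hκ hu hu1
      (lt_min (by positivity) hb2)
  have hSs1 : Smk κ S (ε / 3) := smk_mono hSs (min_le_left _ _)
  have hSs2 : Smk κ S (1 / (16 * (1 + |b|) ^ 2)) := smk_mono hSs (min_le_right _ _)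
  have hKs1 : Smk κ K (ε / 3) := smk_mono hKs (min_le_left _ _)
  have hKs2 : Smk κ K (1 / (16 * (1 + |b|) ^ 2)) := smk_mono hKs (min_le_right _ _)
  have hKs3 : Small K 1 := by
    refine small_of_smk hκ (smk_mono hKs2 ?_)
    rw [div_le_one (by positivity)]
    nlinarith [abs_nonneg b]
  have henv := env κ α γ b l c k χ ps cb S K j₀ hκ α0 γ0 l0 l1 hk hj0 hshp hS hSs2 hSi hK hKp hKs2
    hvan htube
  set e := mkEnv κ α γ b l c k χ ps cb S K with he
  -- the averaged part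
  obtain ⟨o1, o2, o3, o4, o5, o6, o7, o8, o9, o10, o11, o12⟩ := ops 1 h hh
  set F : E 1 → ℝ := fun p => h p - av h p with hF
  have hFs : Sm F := ⟨hh.1.sub o3.1, fun p m l => by simp only [hF, hh.2 p m l, o3.2 p m l]⟩
  have hF0 : ∀ p, av F p = 0 := by
    intro p
    have i1 : ∀ G : E 1 → ℝ, Continuous G → IntervalIntegrable
        (fun s : ℝ => G (p.1 + s • Pi.single (0 : Fin (1 + 1)) (1 : ℝ), p.2))
        MeasureTheory.volume 0 1 := by
      intro G hG
      refine Continuous.intervalIntegrable ?_ _ _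
      fun_prop
    have h1 : av F p = av h p - av (av h) p :=
      intervalIntegral.integral_sub (i1 h hh.1.continuous) (i1 (av h) o3.1.continuous)
    rw [h1, o11, sub_self]
  have hdF : ∀ i p, dX i F p = dX i h p := by
    intro i p
    have h1 : DifferentiableAt ℝ h p := hh.1.differentiable (by norm_num) p
    have h2 : DifferentiableAt ℝ (av h) p := o3.1.differentiable (by norm_num) p
    have h3 : dX i (av h) p = 0 := dX_of_indep (o3.1.differentiable (by norm_num)) hav i p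
    unfold dX at h3 ⊢
    rw [hF, fderiv_fun_sub h1 h2, sub_apply, h3, sub_zero]
  -- the function `g`
  set g : E 1 → ℝ := fun p => l ^ 2 / γ * gs k p + (S p + K p) with hg
  have κ2 : (2 : WithTop ℕ∞) ≤ (κ : WithTop ℕ∞) := by exact_mod_cast hκ
  have hgsκ : ContDiff ℝ κ (gs k) := contDiff_infty.1 (gs_smooth hk) κ
  have hSκ : ContDiff ℝ κ S := contDiff_infty.1 hS.1 κ
  have hK2 : ContDiff ℝ 2 K := hK.of_le κ2
  have hgc : ContDiff ℝ κ g := (contDiff_const.mul hgsκ).add (hSκ.add hK)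
  have hgp : Per g := by
    intro p m n
    simp only [hg, gs_per hk p m n, hKp p m n, hS.2 p m n]
  have hgsm : Smk κ g ε := by
    have h1 : Smk κ (fun p => l ^ 2 / γ * gs k p) (l ^ 2 / γ * Cg) :=
      smk_cmul hgsκ hgs (by positivity)
    have h2 := smk_add (contDiff_const.mul hgsκ) (hSκ.add hK) (smk_mono h1 l2)
      (smk_add hSκ hK hSs1 hKs1)
    refine smk_mono h2 (le_of_eq ?_)
    ring
  set f : E 1 → ℝ := fun p => h p + g p with hf
  have hh2 : ContDiff ℝ 2 h := contDiff_infty.1 hh.1 2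
  have hfc : ContDiff ℝ 2 f := hh2.add (hgc.of_le κ2)
  have hfp : Per f := by
    intro p m n
    simp only [hf, hh.2 p m n, hgp p m n]
  have hdf : ∀ p, dX 0 f p = dX 0 F p + dX 0 K p ∧
      dX 1 f p = dX 1 F p + l ^ 2 / γ * k (p.1 1) * deriv k (p.1 1) + dX 1 S p + dX 1 K p := by
    intro p
    have h1 : DifferentiableAt ℝ h p := hh.1.differentiable (by norm_num) p
    have h2 : DifferentiableAt ℝ (gs k) p := (gs_smooth hk).differentiable (by norm_num) p
    have h3 : DifferentiableAt ℝ K p := hK2.differentiable (by norm_num) p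
    have h3' : DifferentiableAt ℝ S p := hS.1.differentiable (by norm_num) p
    have h4 : ∀ i, dX i f p = dX i h p + (l ^ 2 / γ * dX i (gs k) p + (dX i S p + dX i K p)) := by
      intro i
      have k1 : HasFDerivAt f (fderiv ℝ h p + ((l ^ 2 / γ) • fderiv ℝ (gs k) p +
          (fderiv ℝ S p + fderiv ℝ K p))) p :=
        h1.hasFDerivAt.add ((h2.hasFDerivAt.const_mul _).add (h3'.hasFDerivAt.add h3.hasFDerivAt))
      unfold dX
      rw [k1.fderiv]
      simp
    have hS0 : dX 0 S p = 0 := by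
      have k1 : HasDerivAt (fun s : ℝ => S (p + s • ((Pi.single 0 1, 0) : E 1)))
          (fderiv ℝ S p (Pi.single 0 1, 0)) 0 := by
        have k2 : HasDerivAt (fun s : ℝ => p + s • ((Pi.single 0 1, 0) : E 1))
            ((Pi.single 0 1, 0) : E 1) 0 := by
          simpa using ((hasDerivAt_id (0 : ℝ)).smul_const ((Pi.single 0 1, 0) : E 1)).const_add p
        have k3 : HasFDerivAt S (fderiv ℝ S p) (p + (0 : ℝ) • ((Pi.single 0 1, 0) : E 1)) := by
          simpa using h3'.hasFDerivAt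
        exact k3.comp_hasDerivAt (0 : ℝ) k2
      have k4 : (fun s : ℝ => S (p + s • ((Pi.single 0 1, 0) : E 1))) = fun _ => S p := by
        funext s
        have e1 : p + s • ((Pi.single 0 1, 0) : E 1) = pt (p.1 0 + s) (p.1 1) p.2 := by
          refine Prod.ext ?_ ?_
          · funext i
            fin_cases i <;> simp [pt]
          · simp [pt]
        have e2 : p = pt (p.1 0) (p.1 1) p.2 := by
          refine Prod.ext ?_ ?_
          · funext i
            fin_cases i <;> simp [pt]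
          · simp [pt]
        rw [e1]
        conv_rhs => rw [e2]
        exact hSi _ _ _ _
      rw [k4] at k1
      exact k1.unique (hasDerivAt_const _ _)
    obtain ⟨g0, g1⟩ := gs_der hk p
    rw [h4, h4, hdF, hdF, g0, g1, hS0]
    constructor <;> ring
  -- dynamics
  obtain ⟨H, hH⟩ := hom e j₀ henv
  obtain ⟨m, C₁, r₀, K₀, hm, hC₁, hr₀, hr₁, hK₀, hstep⟩ := step e j₀ H henv hH
  obtain ⟨Jf, wf, C, V₀, hC, hV₀, hnear, have2⟩ := ave κ α γ b l c (2 * m) k F S α0 γ0 l0 l1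
    (by positivity) hk hFs hF0 hS hSi
  obtain ⟨i₁, hi₁, hstep2⟩ := hstep C V₀ hC hV₀
  obtain ⟨i₂, hstart⟩ := start e j₀ b C V₀ C C₁ r₀ K₀ Jf wf henv hC hV₀ hnear hC hC₁ hr₀ hK₀
  set i := max i₁ i₂ with hi
  obtain ⟨p₀, p₁, v, q, hsol, hcont⟩ := flow α γ b f hfc hfp (fun s => b * s) (fun s => s)
    (fun _ => (2 : ℝ) ^ i + 1) (fun s => l * s) (by fun_prop) (by fun_prop) (by fun_prop)
    (by fun_prop)
  obtain ⟨a, c', J, ha', hc'', hgood⟩ := hstart i p₀ p₁ v q (le_max_right _ _) fun s =>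
    ⟨(hsol s).2.1, (hsol s).2.2.1, (hsol s).2.2.2.1, (hsol s).2.2.2.2⟩
  set G : ℤ → Fam := mkFam b Jf wf p₀ p₁ v q with hG
  have hshf : Shf b G := by
    intro N s t
    refine ⟨?_, ?_, rfl, rfl⟩
    · change p₀ s t - b * (p₁ s t - ((N + 1 : ℤ) : ℝ)) = p₀ s t - b * (p₁ s t - N) + b
      push_cast
      ring
    · change p₁ s t - ((N + 1 : ℤ) : ℝ) = p₁ s t - N - 1
      push_cast
      ring
  have hAE : ∀ (a₁ a₂ : ℝ) (N : ℤ), AE e (G N) (Pv v q) C V₀ (2 * m) a₁ a₂ := fun a₁ a₂ N =>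
    have2 K f χ ps cb hK2 hKp hKs3 hdf p₀ p₁ v q (fun s => (hsol s).1) hcont N a₁ a₂
  obtain ⟨s, hs1, hs2⟩ := iter
    (fun i N a c T J => Good e (G N) (Pv v q) C C₁ r₀ K₀ i a c T J) (Pv v q) i₁
    (fun i hi => by
      obtain ⟨δ, hδ, h1⟩ := hstep2 i hi
      refine ⟨δ, hδ, fun N a c T J hg => ⟨hg.box.le, hg.lo, hg.hi, ?_⟩⟩
      exact h1 b G (Pv v q) a c T N J hshf (fun N => hAE a c N) hg)
    i 0 a c' 0 J (le_max_left _ _) hgood
  refine ⟨g, fun t => ![p₀ s t, p₁ s t], hgc, hgp, hgsm, sol_of_tr hA f _ _ _ _ (hsol s).1, ?_⟩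
  have hd0 : (deriv fun t => (![p₀ s t, p₁ s t] : Q 1) 0) = fun t => v s t + b * q s t :=
    funext fun t => ((hsol s).1 t).1.deriv
  rw [hd0, tendsto_atTop]
  intro B
  obtain ⟨T₁, hT₁⟩ := hs2 (B + 2 * |b|)
  filter_upwards [eventually_ge_atTop T₁] with t ht
  obtain ⟨V'', h1, h2, h3⟩ := hT₁ t ht
  have h4 : |b * q s t| ≤ |b| * 2 := by
    rw [abs_mul]
    exact mul_le_mul_of_nonneg_left h3 (abs_nonneg _)
  have h5 := (abs_le.1 h4).1
  linarith

end Pool.Agent.Helper69.EK
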