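import Pool.Graph.R_pool_sql_team_seeded_1e53cb71.Helper6K9.EH.Stm

set_option autoImplicit false

/-!
# Orbits which escape to infinity on flat tori of dimension two, all classes `C^κ`: definitions

This is a modification of the library development `Helper6K9/EH` (class `C²`). Unsheared coordinates:
points `p = (![x₀, x₁], t)` of `E 1`. Sheared coordinates: `x = x₀ - b x₁` (fast), `y = x₁` (slow).
The equations are `x'' = α ∂f/∂x`, `y'' = γ ∂f/∂y` with `∂/∂x = dX 0`, `∂/∂y = dX 1 + b dX 0`.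

The potential is `F + l² k²/(2γ) + S + K`, `F` with average zero in the direction of `x₀`, `S = S(y,t)`
the smooth control potential, `K` the kick potential of class `C^κ`. There are three tubes
`j = 3 i, 3 i + 1, 3 i + 2` for the velocities in `[2^i, 2^(i+1)]`.
-/

namespace Pool.Agent.Helper69.EK

open Set Filter Topology Pool.Agent.Helper6K9.ES
open Pool.Agent.Helper6K9.EH (Prof Fam eX eY dst pt Tr mkFam Pv Shf)
open scoped ContDiff

/-- the number `j / 3 + 8` -/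
noncomputable def MM (j : ℕ) : ℝ := ((j / 3 : ℕ) : ℝ) + 8

/-- the passing times of the tubes: `τ_j - τ_(j+1) = 1 / (3 M (M + 1))` -/
noncomputable def tau (j : ℕ) : ℝ := 1 / MM j - ((j % 3 : ℕ) : ℝ) / (3 * MM j * (MM j + 1))

/-- the widths of the tubes -/
noncomputable def ss (u : ℝ) (j : ℕ) : ℝ := u / (64 * MM j ^ 2)

/-- the sizes of the control potentials -/
noncomputable def ee (j : ℕ) : ℝ := Real.exp (-√(MM j))

/-- the durations of the kicks -/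
noncomputable def dd (j : ℕ) : ℝ := 1 / (512 * 2 ^ (j / 3))

/-- the sizes of the kicks -/
noncomputable def aa (κ j : ℕ) : ℝ := ee j * dd j ^ κ

/-- the inverse velocity -/
noncomputable def qq (j : ℕ) : ℝ := 1 / 2 ^ (j / 3)

/-- the phase shift of the kicks -/
noncomputable def hf (j : ℕ) : ℝ := if j % 3 = 1 then 1 / 4 else 0

/-- the offset from the centre of the tube `j` -/
noncomputable def eta (u : ℝ) (j : ℕ) (y t : ℝ) : ℝ := y - 1 / 2 - u * (t - tau j)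

/-- The environment: constants, profile, the functions of the tube potentials, and the partial
derivatives (in sheared coordinates, as functions of `x`, `y`, `t`): `Kx` of the kick potential, `Ky`
of the sum of the control potential and the kick potential, `Kz` of the kick potential (in the
direction `y`). -/
structure Env where
  κ : ℕ
  α : ℝ
  γ : ℝ
  l : ℝ
  c : ℝ
  k : ℝ → ℝ
  χ : ℝ → ℝ
  ps : ℝ → ℝ
  cb : ℝ → ℝ
  Kx : ℝ → ℝ → ℝ → ℝ
  Ky : ℝ → ℝ → ℝ → ℝ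
  Kz : ℝ → ℝ → ℝ → ℝ

/-- the shapes of the bumps -/
structure Shp (u : ℝ) (χ ps cb : ℝ → ℝ) : Prop where
  chs : ContDiff ℝ ∞ χ
  chn : ∀ y, 0 ≤ χ y
  chp : ∃ y₁ y₂ : ℝ, 1 / 4 ≤ y₁ ∧ y₁ < y₂ ∧ y₂ ≤ 1 / 2 ∧ ∀ y ∈ Icc y₁ y₂, 1 ≤ χ y
  chz : ∀ y, χ y ≠ 0 → 1 / 2 - u / 4 < y ∧ y < 1 / 2
  psc : Continuous ps
  psp : ∀ (z : ℝ) (n : ℤ), ps (z + n) = ps z
  ps1 : ∀ z ∈ Icc (0 : ℝ) (7 / 8), ps z = 1
  cbc : Continuous cb
  cbn : ∀ z, 0 ≤ cb z ∧ cb z ≤ 1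
  cb1 : ∀ z, |z| ≤ 1 / 2 → cb z = 1
  cb0 : ∀ z, 1 ≤ |z| → cb z = 0

/-- the conditions on the environment -/
structure EnvOK (e : Env) (j₀ : ℕ) : Prop where
  hα : 0 < e.α
  hγ : 0 < e.γ
  hl : 0 < e.l
  hl1 : e.l ≤ 1 / 2
  prof : Prof e.k e.c
  shp : Shp (e.l * e.c) e.χ e.ps e.cb
  j0 : 1 ≤ j₀
  cont : Continuous fun p : ℝ × ℝ × ℝ => (e.Kx p.1 p.2.1 p.2.2, e.Ky p.1 p.2.1 p.2.2)
  bd : ∀ x y t, |e.Kx x y t| ≤ 1 ∧ |e.Ky x y t| ≤ 1 ∧ |e.Kz x y t| ≤ 1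
  lip : ∀ x y x' y' t, |e.Kx x y t - e.Kx x' y' t| ≤ |x - x'| + |y - y'| ∧
    |e.Ky x y t - e.Ky x' y' t| ≤ |x - x'| + |y - y'|
  per : ∀ x y t (n : ℤ), e.Kx x y (t + n) = e.Kx x y t ∧ e.Ky x y (t + n) = e.Ky x y t ∧
    e.Kz x y (t + n) = e.Kz x y t
  van : ∀ x y t, (|y| ≤ 1 / 4 ∨ |y - 1| ≤ 1 / 4) →
    e.Kx x y t = 0 ∧ e.Ky x y t = 0 ∧ e.Kz x y t = 0
  tube : ∀ j, j₀ ≤ j → ∀ x y t, |y - 1 / 2| ≤ 1 / 4 → |eta (e.l * e.c) j y t| ≤ ss (e.l * e.c) j →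
    e.Ky x y t = ee j * (eta (e.l * e.c) j y t * e.χ y +
      eta (e.l * e.c) j y t ^ 2 / 2 * deriv e.χ y) ∧
    e.Kx x y t = aa e.κ j * e.cb ((t - tau j) / dd j) * e.ps (x - hf j) ∧
    e.Kz x y t = 0

noncomputable def ew (e : Env) (F : Fam) (s t : ℝ) : ℝ :=
  deriv (F.w s) t - (e.l ^ 2 * e.k (F.Y s t) * deriv e.k (F.Y s t) +
    e.γ * e.Ky (F.X s t) (F.Y s t) t)
noncomputable def eJ (e : Env) (F : Fam) (s t : ℝ) : ℝ :=
  deriv (F.J s) t - e.α * e.Kx (F.X s t) (F.Y s t) t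

/-- The curves with parameters in `[a, b]` satisfy, for `t ∈ [t₀, t₁]`, the equations
`X' = J`, `J' = α Kx`, `Y' = w`, `w' = l² k k' + γ Ky` up to errors of size and Lipschitz constant
`ε`; the error of `J'` is much smaller. -/
structure Ctl (e : Env) (F : Fam) (ε a b t₀ t₁ : ℝ) : Prop where
  dif : ∀ s ∈ Icc a b, ∀ t ∈ Icc t₀ t₁, DifferentiableAt ℝ (F.X s) t ∧
    DifferentiableAt ℝ (F.J s) t ∧ DifferentiableAt ℝ (F.Y s) t ∧ DifferentiableAt ℝ (F.w s) t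
  bd : ∀ s ∈ Icc a b, ∀ t ∈ Icc t₀ t₁, |eX F s t| ≤ ε ∧ |eY F s t| ≤ ε ∧ |ew e F s t| ≤ ε ∧
    |eJ e F s t| ≤ ε ^ (e.κ + 3) +
      ε * (|e.Kx (F.X s t) (F.Y s t) t| + |e.Kz (F.X s t) (F.Y s t) t|)
  lip : ∀ s ∈ Icc a b, ∀ s' ∈ Icc a b, ∀ t ∈ Icc t₀ t₁,
    |eX F s t - eX F s' t| ≤ ε * dst F s s' t ∧ |eY F s t - eY F s' t| ≤ ε * dst F s s' t ∧
    |ew e F s t - ew e F s' t| ≤ ε * dst F s s' t ∧ |eJ e F s t - eJ e F s' t| ≤ ε * dst F s s' t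
  cts : ∀ t ∈ Icc t₀ t₁, ContinuousOn (fun s => F.X s t) (Icc a b) ∧
    ContinuousOn (fun s => F.J s t) (Icc a b) ∧ ContinuousOn (fun s => F.Y s t) (Icc a b) ∧
    ContinuousOn (fun s => F.w s t) (Icc a b)

/-- the unstable coordinate -/
noncomputable def xi (e : Env) (F : Fam) (s t : ℝ) : ℝ := F.w s t + e.l * F.Y s t
/-- the stable coordinate -/
noncomputable def ze (e : Env) (F : Fam) (s t : ℝ) : ℝ := F.w s t - e.l * F.Y s t

/-- At the time `T` the curves with parameters in `[a, b]` form a path across the box near the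
hyperbolic equilibrium, which is a Lipschitz graph (constant `K`) over the unstable coordinate. -/
structure Box (e : Env) (F : Fam) (a b T R Z K : ℝ) : Prop where
  le : a ≤ b
  left : xi e F a T = -R
  right : xi e F b T = R
  bx : ∀ s ∈ Icc a b, |xi e F s T| ≤ R
  bz : ∀ s ∈ Icc a b, |ze e F s T| ≤ Z
  cone : ∀ s ∈ Icc a b, ∀ s' ∈ Icc a b, |ze e F s T - ze e F s' T| +
    e.l / 4 * |F.X s T - F.X s' T| + |F.J s T - F.J s' T| ≤ K * |xi e F s T - xi e F s' T|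

/-- The equations are available as long as the predicate `P V s t` (velocity at least `V`) holds at the
beginning of a time interval of length `k₂`; `P` persists. -/
def AE (e : Env) (F : Fam) (P : ℝ → ℝ → ℝ → Prop) (C V₀ k₂ a b : ℝ) : Prop :=
  ∀ V T a' b' : ℝ, V₀ ≤ V → 0 ≤ T → a ≤ a' → a' ≤ b' → b' ≤ b → (∀ s ∈ Icc a' b', P V s T) →
    Ctl e F (C / V) a' b' T (T + k₂) ∧
    ∀ s ∈ Icc a' b', ∀ t ∈ Icc T (T + k₂), ∀ V', V₀ ≤ V' → V' + 1 ≤ F.J s t → |F.w s t| ≤ 1 →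
      P V' s t

/-- the homoclinic solution -/
structure Hom (e : Env) (H : ℝ → ℝ) : Prop where
  der : ∀ t, HasDerivAt H (e.l * e.k (H t)) t
  pla : ∀ t, |t| * (e.l * e.c) ≤ 1 / 4 → H t = 1 / 2 + e.l * e.c * t
  mon : StrictMono H
  mem : ∀ t, 0 < H t ∧ H t < 1
  bot : Tendsto H atBot (𝓝 0)
  top : Tendsto H atTop (𝓝 1)

/-- Entrance into the loop at the integer time `T`: the path ranges over the positions from which the
tube `j` is passed after a time about `m`. -/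
structure Ent (e : Env) (H : ℝ → ℝ) (m j : ℕ) (F : Fam) (a b : ℝ) (T : ℕ) (ε C : ℝ) : Prop where
  le : a ≤ b
  ctl : Ctl e F ε a b T (T + 2 * m)
  ya : F.Y a T = H (-m - tau j - ss (e.l * e.c) j / (2 * (e.l * e.c)))
  yb : F.Y b T = H (-m - tau j + ss (e.l * e.c) j / (2 * (e.l * e.c)))
  yy : ∀ s ∈ Icc a b, F.Y a T ≤ F.Y s T ∧ F.Y s T ≤ F.Y b T
  zz : ∀ s ∈ Icc a b, |F.w s T - e.l * F.Y s T| ≤ C * ε

/-- the curves stay close to the homoclinic solution and pass through the tube `j` -/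
structure Thr (e : Env) (H : ℝ → ℝ) (m j : ℕ) (F : Fam) (a b : ℝ) (T : ℕ) (C : ℝ) : Prop where
  near : ∀ s ∈ Icc a b, ∀ t ∈ Icc (T : ℝ) (T + 2 * m),
    |F.Y s t - H (t - T - m - tau j)| ≤ C * ss (e.l * e.c) j ∧
    |F.w s t - e.l * e.k (F.Y s t)| ≤ C * (ee j * ss (e.l * e.c) j)
  tube : ∀ s ∈ Icc a b, ∀ t ∈ Icc (T : ℝ) (T + 2 * m), |F.Y s t - 1 / 2| ≤ 1 / 4 →
    |eta (e.l * e.c) j (F.Y s t) (t - T - m)| ≤ ss (e.l * e.c) j

/-- the environment of the control potential `S` and the kick potential `K` -/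
noncomputable def mkEnv (κ : ℕ) (α γ b l c : ℝ) (k χ ps cb : ℝ → ℝ) (S K : E 1 → ℝ) : Env where
  κ := κ
  α := α
  γ := γ
  l := l
  c := c
  k := k
  χ := χ
  ps := ps
  cb := cb
  Kx := fun x y t => dX 0 K (pt (x + b * y) y t)
  Ky := fun x y t => dX 1 S (pt (x + b * y) y t) +
    (dX 1 K (pt (x + b * y) y t) + b * dX 0 K (pt (x + b * y) y t))
  Kz := fun x y t => dX 1 K (pt (x + b * y) y t) + b * dX 0 K (pt (x + b * y) y t)

/-- a good path at the integer time `T`, in the block `i`; `J₀` is the minimum of the adiabatic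
invariant along the path -/
structure Good (e : Env) (F : Fam) (P : ℝ → ℝ → ℝ → Prop) (C C₁ r₀ K₀ : ℝ) (i : ℕ) (a b : ℝ) (T : ℕ)
    (J₀ : ℝ) : Prop where
  box : Box e F a b T (C₁ * (C / ((2 : ℝ) ^ i - 3))) r₀ (K₀ / ee (3 * i))
  ja : ∃ s ∈ Icc a b, F.J s T = J₀
  jm : ∀ s ∈ Icc a b, J₀ ≤ F.J s T
  lo : (2 : ℝ) ^ i ≤ J₀
  hi : J₀ < (2 : ℝ) ^ (i + 1)
  vel : ∀ s ∈ Icc a b, P ((2 : ℝ) ^ i - 3) s T

/-- `Jf` and `wf` are close to `v` and `q` for large `v`, with small Lipschitz constants -/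
def NearId (Jf wf : ℝ → ℝ → E 1 → ℝ) (C V₀ : ℝ) : Prop :=
  (∀ v q p, V₀ ≤ v → |q| ≤ 2 → |Jf v q p - v| ≤ C / v ∧ |wf v q p - q| ≤ C / v) ∧
  (∀ (V v v' q q' : ℝ) (p p' : E 1), V₀ ≤ V → V ≤ v → V ≤ v' → |q| ≤ 2 → |q'| ≤ 2 → p.2 = p'.2 →
    |(Jf v q p - v) - (Jf v' q' p' - v')| ≤
      C / V * (|v - v'| + |q - q'| + |p.1 0 - p'.1 0| + |p.1 1 - p'.1 1|) ∧
    |(wf v q p - q) - (wf v' q' p' - q')| ≤
      C / V * (|v - v'| + |q - q'| + |p.1 0 - p'.1 0| + |p.1 1 - p'.1 1|)) ∧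
  ContinuousOn (fun z : ℝ × ℝ × E 1 => (Jf z.1 z.2.1 z.2.2, wf z.1 z.2.1 z.2.2))
    {z | V₀ ≤ z.1 ∧ |z.2.1| ≤ 2}

/-- all derivatives of order at most `κ` are bounded by `ε` -/
def Smk {m : ℕ} (κ : ℕ) (F : E m → ℝ) (ε : ℝ) : Prop :=
  ∀ j : ℕ, j ≤ κ → ∀ p, ‖iteratedFDeriv ℝ j F p‖ ≤ ε

/-! ## The Hamilton-Jacobi equation -/

/-- points of `T² × T` with the inverse momentum `δ` and the slow momentum `W` -/
abbrev PP := E 1 × ℝ × ℝ

/-- smooth functions which are periodic in the first three variables -/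
def SP (a : PP → ℝ) : Prop := ContDiff ℝ ∞ a ∧
  ∀ (p : E 1) (k : Fin (1 + 1) → ℤ) (l : ℤ) (δ W : ℝ),
    a ((p.1 + (fun i => (k i : ℝ)), p.2 + l), δ, W) = a (p, δ, W)

/-- the direction of the fast variable -/
def vx : PP := ((Pi.single 0 1, 0), 0, 0)
/-- the direction of the slow variable, in sheared coordinates -/
def vy (b : ℝ) : PP := ((![b, 1], 0), 0, 0)
def vt : PP := ((0, 1), 0, 0)
def vd : PP := (0, 1, 0)
def vw : PP := (0, 0, 1)

/-- the derivative in the direction `v` -/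
noncomputable def pd (v : PP) (a : PP → ℝ) (z : PP) : ℝ := fderiv ℝ a z v

/-- the function `δ a` -/
def dl (a : PP → ℝ) (z : PP) : ℝ := z.2.1 * a z

/-- The residual of the Hamilton-Jacobi equation for the generating function
`σ = δ σ₁` (`δ = 1 / P`) and the effective Hamiltonian `h = h(y, t, δ, W)`. -/
noncomputable def resid (α γ b : ℝ) (Fh : E 1 → ℝ) (σ₁ h : PP → ℝ) (z : PP) : ℝ :=
  pd vx σ₁ z + α / 2 * pd vx (dl σ₁) z ^ 2 + z.2.2 * pd (vy b) (dl σ₁) z +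
    γ / 2 * pd (vy b) (dl σ₁) z ^ 2 + pd vt (dl σ₁) z - Fh z.1 -
    h (z + (γ * pd vw (dl σ₁) z) • vy b)

end Pool.Agent.Helper69.EK
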