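import Pool.Agent.Helper69.EK.Stm
import Pool.Graph.R_pool_sql_team_seeded_1e53cb71.Helper6K9.ES.Red

set_option autoImplicit false

/-!
# Reduction to adapted coordinates, dimension two, all classes

Adapted from the library file `Helper6K9/EH/Red2`.
-/

namespace Pool.Agent.Helper69.EK

open Set Filter Topology Pool.Agent.Helper6K9.ES
open scoped ContDiff

namespace RedK

variable {m : ℕ}

theorem smk_mono {κ : ℕ} {F : E m → ℝ} {a b : ℝ} (h : Smk κ F a) (hab : a ≤ b) : Smk κ F b :=
  fun j hj p => (h j hj p).trans hab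

theorem smk_add {κ : ℕ} {F G : E m → ℝ} {a b : ℝ} (hF : ContDiff ℝ κ F) (hG : ContDiff ℝ κ G)
    (h : Smk κ F a) (h' : Smk κ G b) : Smk κ (fun p => F p + G p) (a + b) := by
  intro j hj p
  have h1 := iteratedFDeriv_add_apply (𝕜 := ℝ) (i := j) (f := F) (g := G) (x := p)
    ((hF.contDiffAt).of_le (by exact_mod_cast hj)) ((hG.contDiffAt).of_le (by exact_mod_cast hj))
  have e : (fun p => F p + G p) = F + G := rfl
  rw [e, h1]
  exact (norm_add_le _ _).trans (add_le_add (h j hj p) (h' j hj p))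

theorem smk_lin {κ : ℕ} {F : E m → ℝ} {a : ℝ} (hF : ContDiff ℝ κ F) (h : Smk κ F a)
    (L : E m →L[ℝ] E m) : Smk κ (fun p => F (L p)) (a * (1 + ‖L‖) ^ κ) := by
  intro j hj p
  have ha : 0 ≤ a := (norm_nonneg _).trans (h 0 (Nat.zero_le _) 0)
  have e : (fun p => F (L p)) = F ∘ L := rfl
  rw [e, L.iteratedFDeriv_comp_right hF p (by exact_mod_cast hj)]
  refine (ContinuousMultilinearMap.norm_compContinuousLinearMap_le _ _).trans ?_
  have h4 : ∏ _j : Fin j, ‖L‖ ≤ (1 + ‖L‖) ^ κ := by
    rw [Finset.prod_const, Finset.card_univ, Fintype.card_fin]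
    have h0 := norm_nonneg L
    calc ‖L‖ ^ j ≤ (1 + ‖L‖) ^ j := pow_le_pow_left₀ h0 (by linarith) j
      _ ≤ (1 + ‖L‖) ^ κ := pow_le_pow_right₀ (by linarith) hj
  exact mul_le_mul (h j hj _) h4 (Finset.prod_nonneg fun _ _ => norm_nonneg _) ha

end RedK

open Pool.Agent.Helper6K9.ES.RedL RedK in
theorem red_gen (m κ : ℕ) (hκ : 2 ≤ κ) : S_MOL → S_AVG →
  (∀ (A : Matrix (Fin (m + 1)) (Fin (m + 1)) ℝ) (h : E m → ℝ) (ε : ℝ), 0 < ε →
    A.PosDef → Sm h → (∀ p q : E m, p.2 = q.2 → av h p = av h q) →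
    ∃ (g : E m → ℝ) (γ : ℝ → Q m), ContDiff ℝ κ g ∧ Per g ∧ Smk κ g ε ∧
      Sol A (fun p => h p + g p) γ univ ∧ Tendsto (deriv fun s => γ s 0) atTop atTop) →
  ∀ (A : Matrix (Fin (m + 1)) (Fin (m + 1)) ℝ) (f₀ : E m → ℝ) (ε : ℝ), 0 < ε →
    A.PosDef → ContDiff ℝ κ f₀ → Per f₀ →
    ∃ (f : E m → ℝ) (γ : ℝ → Q m), ContDiff ℝ κ f ∧ Per f ∧ Smk κ (fun p => f p - f₀ p) ε ∧
      Sol A f γ univ ∧ ∀ V : ℝ, ∀ᶠ t : ℝ in atTop, ∃ i, V ≤ |deriv (fun s => γ s i) t| := by
  intro hmol havg hct A f₀ ε hε hA hf₀ hper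
  obtain ⟨h, hh, hsm⟩ := hmol κ m f₀ (ε / 3) (by positivity) hf₀ hper
  obtain ⟨M, h₂, hh₂, hsm₂, hav⟩ := havg κ m h (ε / 3) (by positivity) hh
  set S : Matrix (Fin (m + 1)) (Fin (m + 1)) ℤ := SM m M with hS
  have hdet : IsUnit S.det := by rw [hS, SM_det]; exact isUnit_one
  set R : Matrix (Fin (m + 1)) (Fin (m + 1)) ℤ := S⁻¹ with hR
  have hSR : S * R = 1 := Matrix.mul_nonsing_inv S hdet
  have hRS : R * S = 1 := Matrix.nonsing_inv_mul S hdet
  set Sr : Matrix (Fin (m + 1)) (Fin (m + 1)) ℝ := S.map (Int.cast : ℤ → ℝ) with hSr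
  set Rr : Matrix (Fin (m + 1)) (Fin (m + 1)) ℝ := R.map (Int.cast : ℤ → ℝ) with hRr
  have hSRr : Sr * Rr = 1 := by
    have h1 : Sr * Rr = (S * R).map (Int.castRingHom ℝ) :=
      (Matrix.map_mul (L := S) (M := R) (f := Int.castRingHom ℝ)).symm
    rw [h1, hSR]
    exact Matrix.map_one _ (map_zero _) (map_one _)
  have hRSr : Rr * Sr = 1 := by
    have h1 : Rr * Sr = (R * S).map (Int.castRingHom ℝ) :=
      (Matrix.map_mul (L := R) (M := S) (f := Int.castRingHom ℝ)).symm
    rw [h1, hRS]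
    exact Matrix.map_one _ (map_zero _) (map_one _)
  have hcancel : ∀ p : E m, lin Sr (lin Rr p) = p := by
    intro p
    simp [lin_apply, Matrix.mulVec_mulVec, hSRr]
  have hcancel' : ∀ p : E m, lin Rr (lin Sr p) = p := by
    intro p
    simp [lin_apply, Matrix.mulVec_mulVec, hRSr]
  have hom : ∀ (p : E m) (s : ℝ), lin Sr (p.1 + s • Pi.single (0 : Fin (m + 1)) (1 : ℝ), p.2) =
      ((lin Sr p).1 + s • om m M, (lin Sr p).2) := by
    intro p s
    simp only [lin_apply]
    congr 1
    rw [Matrix.mulVec_add, Matrix.mulVec_smul]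
    congr 2
    ext i
    simp [hSr, hS, SM, om, Matrix.mulVec_single]
  -- the function in the adapted coordinates
  obtain ⟨g', γ', hg', hgper, hgsm, hsol, hgrow⟩ :=
    hct (Sr.transpose * A * Sr) (fun p => h₂ (lin Sr p))
      (ε / 3 / (1 + ‖lin Rr‖) ^ κ) (by positivity) (by
        have hinj : Function.Injective Sr.mulVec := by
          intro x y hxy
          have := congrArg Rr.mulVec hxy
          simpa [Matrix.mulVec_mulVec, hRSr] using this
        have := hA.conjTranspose_mul_mul_same hinj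
        rwa [Matrix.conjTranspose_eq_transpose_of_trivial] at this)
      ⟨hh₂.1.comp (lin Sr).contDiff, per_lin hh₂.2 S⟩ (by
        intro p q hpq
        unfold av
        have := hav (lin Sr p) (lin Sr q) (by simp [lin_apply, hpq])
        simp only [hom]
        exact this)
  have hgC : ContDiff ℝ κ fun p => g' (lin Rr p) := hg'.comp (lin Rr).contDiff
  have hh₂C : ContDiff ℝ κ h₂ := by exact_mod_cast contDiff_infty.mp hh₂.1 κ
  have hhC : ContDiff ℝ κ h := by exact_mod_cast contDiff_infty.mp hh.1 κ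
  set f : E m → ℝ := fun p => h₂ p + g' (lin Rr p) with hf
  have hfC : ContDiff ℝ κ f := hh₂C.add hgC
  have hfd : Differentiable ℝ f := hfC.differentiable (by
    have : κ ≠ 0 := by omega
    exact_mod_cast this)
  have hfS : (fun p => h₂ (lin Sr p) + g' p) = fun p => f (lin Sr p) := by
    funext p
    simp only [hf, hcancel']
  refine ⟨f, fun t => Sr.mulVec (γ' t), hfC, ?_, ?_, ?_, ?_⟩
  · intro p k l
    have h1 := hh₂.2 p k l
    have h2 := per_lin hgper R p k l
    simp only [hf]
    rw [h1]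
    congr 1
  · have h1 : Smk κ (fun p => g' (lin Rr p)) (ε / 3) := by
      have := smk_lin hg' hgsm (lin Rr)
      have e : ε / 3 / (1 + ‖lin Rr‖) ^ κ * (1 + ‖lin Rr‖) ^ κ = ε / 3 := by
        have : (1 + ‖lin Rr‖) ^ κ ≠ 0 := by positivity
        field_simp
      rwa [e] at this
    have h2 := smk_add (hhC.sub hf₀) (hh₂C.sub hhC) hsm hsm₂
    have h3 := smk_add ((hhC.sub hf₀).add (hh₂C.sub hhC)) hgC h2 h1
    have e1 : (fun p => f p - f₀ p) =
        fun p => h p - f₀ p + (h₂ p - h p) + g' (lin Rr p) := by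
      funext p
      simp only [hf]
      ring
    have e2 : ε / 3 + ε / 3 + ε / 3 = ε := by ring
    rw [e1, ← e2]
    exact h3
  · -- the equation
    intro t _
    obtain ⟨s1, s2, s3⟩ := hsol t (mem_univ t)
    have hder : ∀ i, (deriv fun u => (Sr.mulVec (γ' u)) i) =
        fun u => ∑ j, Sr i j * deriv (fun u => γ' u j) u := by
      intro i
      funext u
      have hs1 := (hsol u (mem_univ u)).1
      have : (fun u => (Sr.mulVec (γ' u)) i) = fun u => ∑ j, Sr i j * γ' u j := by
        funext v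
        simp [Matrix.mulVec, dotProduct]
      rw [this]
      have hd : HasDerivAt (fun u => ∑ j, Sr i j * γ' u j)
          (∑ j, Sr i j * deriv (fun u => γ' u j) u) u :=
        HasDerivAt.fun_sum fun j _ => ((hs1 j).hasDerivAt).const_mul (Sr i j)
      exact hd.deriv
    have hder2 : ∀ i, HasDerivAt (deriv fun u => (Sr.mulVec (γ' u)) i)
        (∑ j, Sr i j * deriv (deriv fun u => γ' u j) t) t := by
      intro i
      rw [hder]
      exact HasDerivAt.fun_sum fun j _ => ((s2 j).hasDerivAt).const_mul (Sr i j)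
    refine ⟨fun i => ?_, fun i => (hder2 i).differentiableAt, ?_⟩
    · have : (fun u => (Sr.mulVec (γ' u)) i) = fun u => ∑ j, Sr i j * γ' u j := by
        funext v
        simp [Matrix.mulVec, dotProduct]
      rw [this]
      exact DifferentiableAt.fun_sum fun j _ => (s1 j).const_mul (Sr i j)
    · -- vectors
      set a : Fin (m + 1) → ℝ := fun j => deriv (deriv fun u => γ' u j) t with ha
      set b : Fin (m + 1) → ℝ := fun i => dX i f (lin Sr (γ' t, t)) with hb
      have key : (Sr.transpose * A * Sr).mulVec a = Sr.transpose.mulVec b := by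
        ext j
        have h3 := s3 j
        have h4 : dX j (fun p => h₂ (lin Sr p) + g' p) (γ' t, t) =
            ∑ i, Sr i j * dX i f (lin Sr (γ' t, t)) := by
          rw [hfS, dX_lin hfd]
        rw [h4] at h3
        simpa [Matrix.mulVec, dotProduct, Matrix.transpose_apply] using h3
      have key2 : (A * Sr).mulVec a = b := by
        have := congrArg Rr.transpose.mulVec key
        rw [Matrix.mulVec_mulVec, Matrix.mulVec_mulVec] at this
        have e1 : Rr.transpose * Sr.transpose = 1 := by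
          rw [← Matrix.transpose_mul, hSRr, Matrix.transpose_one]
        have e2 : Rr.transpose * (Sr.transpose * A * Sr) = A * Sr := by
          rw [Matrix.mul_assoc, ← Matrix.mul_assoc, e1, Matrix.one_mul]
        rw [e1, e2, Matrix.one_mulVec] at this
        exact this
      intro i
      have h5 : (fun j => deriv (deriv fun u => (Sr.mulVec (γ' u)) j) t) = Sr.mulVec a := by
        ext j
        rw [(hder2 j).deriv]
        simp [Matrix.mulVec, dotProduct, ha]
      have h6 : ∑ j, A i j * deriv (deriv fun u => (Sr.mulVec (γ' u)) j) t =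
          A.mulVec (Sr.mulVec a) i := by
        rw [← h5]
        simp [Matrix.mulVec, dotProduct]
      have h7 : (lin Sr (γ' t, t)) = (Sr.mulVec (γ' t), t) := lin_apply _ _
      rw [h6, Matrix.mulVec_mulVec, key2, hb, h7]
  · intro V
    filter_upwards [hgrow.eventually (eventually_ge_atTop V)] with t ht
    refine ⟨0, ht.trans ?_⟩
    have : (fun s => (Sr.mulVec (γ' s)) 0) = fun s => γ' s 0 := by
      funext s
      have : ∀ j : Fin (m + 1), Sr 0 j = if j = 0 then 1 else 0 := by
        intro j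
        by_cases hj : j = 0
        · subst hj
          simp [hSr, hS, SM]
        · have : ¬ j ≤ 0 := fun h => hj (le_antisymm h (Fin.zero_le j))
          simp [hSr, hS, SM, hj]
      simp [Matrix.mulVec, dotProduct, this]
    rw [this]
    exact le_abs_self _

theorem red : S_RED := fun hmol havg hct κ A f₀ ε hκ hε hA hf₀ hper =>
  red_gen 1 κ hκ hmol havg (fun A h ε hε hA hh hav => hct κ A h ε hκ hε hA hh hav)
    A f₀ ε hε hA hf₀ hper

end Pool.Agent.Helper69.EK
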