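import Pool.Agent.Helper69.EK.Ct
import Pool.Agent.Helper69.EK.Red
import Pool.Agent.Helper69.EK.Num
import Pool.Agent.Helper74.EK.HOM
import Pool.Agent.Helper74.EK.ITER
import Pool.Agent.Helper74.EK.START
import Pool.Agent.Helper74.EK.ENV
import Pool.Agent.Helper53.EK.SHA
import Pool.Agent.Helper53.EK.HAD
import Pool.Agent.Helper53.EK.STEPA
import Pool.Agent.Helper53.EK.AVL
import Pool.Agent.Helper36.EK.BND
import Pool.Agent.Helper36.EK.GLU
import Pool.Agent.Helper36.EK.POTA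
import Pool.Agent.Helper56.EK.Unit
import Pool.Agent.Helper56.EK.Wait
import Pool.Agent.Helper56.EK.Avg
import Pool.Agent.Helper79.EK.LA
import Pool.Agent.Helper79.EK.LB
import Pool.Agent.Helper79.EK.LC
import Pool.Agent.Helper32.EK.HJ
import Pool.Agent.Helper32.EK.INV
import Pool.Agent.Helper46.EK.AVA
import Pool.Agent.Helper54.EK.AVB
import Pool.Agent.Helper54.EK.MOL
import Pool.Graph.R_pool_sql_team_seeded_1e53cb71.Helper6K9.EH.Main2

set_option autoImplicit false

/-!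
# The main theorem in dimension two, all classes
-/

namespace Pool.Agent.Helper69.EK

open Set Filter Topology Pool.Agent.Helper6K9.ES
open scoped ContDiff

theorem fin : S_FIN :=
  red mol avg (ct Pool.Agent.Helper6K9.EH.prof hom (pota sha bnd glu) env
    (stepa num (wait unit) la lb lc) iter Pool.Agent.Helper6K9.EH.flow
    (avb (hj had) inv ava avl) start ops)

theorem main (κ : ℕ) (hκ : 2 ≤ κ) (A : Matrix (Fin (1 + 1)) (Fin (1 + 1)) ℝ) (hA : A.PosDef)
    (f₀ : E 1 → ℝ) (hf : ContDiff ℝ κ f₀) (hp : Per f₀) (ε : ℝ) (hε : 0 < ε) :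
    ∃ f : E 1 → ℝ, ContDiff ℝ κ f ∧ Per f ∧
      (∀ (j : ℕ) (p : E 1), j ≤ κ → ‖iteratedFDeriv ℝ j (fun q => f q - f₀ q) p‖ ≤ ε) ∧
      ∃ γ : ℝ → Q 1, ((∀ t, DifferentiableAt ℝ γ t) ∧ ∀ (t : ℝ) (i : Fin (1 + 1)),
        HasDerivAt (fun s => dv (lag A f) i (γ s) (deriv γ s) s)
          (dx (lag A f) i (γ t) (deriv γ t) t) t) ∧
        Tendsto (fun t => ‖deriv γ t‖) atTop atTop := by
  obtain ⟨f, γ, h1, h2, h3, h4, h5⟩ := fin κ A f₀ ε hκ hε hA hf hp
  have hsym : A.IsSymm := by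
    have := hA.isHermitian.eq
    rwa [Matrix.conjTranspose_eq_transpose_of_trivial] at this
  have h6 := orbit_of_sol A hsym f (h1.differentiable (by
    have : κ ≠ 0 := by omega
    exact_mod_cast this)) γ h4
  refine ⟨f, h1, h2, fun j p hj => h3 j hj p, γ, h6, ?_⟩
  rw [tendsto_atTop]
  intro V
  filter_upwards [h5 V] with t ht
  obtain ⟨i, hi⟩ := ht
  have e1 : deriv γ t i = deriv (fun s => γ s i) t :=
    ((hasDerivAt_pi.1 (h6.1 t).hasDerivAt) i).deriv.symm
  rw [← e1] at hi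
  exact hi.trans (norm_le_pi_norm (deriv γ t) i)

end Pool.Agent.Helper69.EK
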