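import Pool.Agent.Helper69.EK.Defs

set_option autoImplicit false

/-!
# Orbits which escape to infinity on flat tori of dimension two, all classes: the statements of the
parts
-/

namespace Pool.Agent.Helper69.EK

open Set Filter Topology Pool.Agent.Helper6K9.ES
open Pool.Agent.Helper6K9.EH (Prof Fam eX eY dst pt Tr mkFam Pv Shf S_PROF S_FLOW)
open scoped ContDiff

/-- the homoclinic solution -/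
def S_HOM : Prop := ∀ (e : Env) (j₀ : ℕ), EnvOK e j₀ → ∃ H : ℝ → ℝ, Hom e H

/-! ### The tube potentials -/

/-- the shapes of the bumps -/
structure Sh (u : ℝ) (χ cb β psi : ℝ → ℝ) : Prop where
  bs : ContDiff ℝ ∞ β
  b1 : ∀ z, |z| ≤ 5 / 4 → β z = 1
  b0 : ∀ z, β z ≠ 0 → |z| ≤ 3 / 2
  cs : ContDiff ℝ ∞ cb
  c0 : ∀ z, cb z ≠ 0 → |z| < 1
  xs : ContDiff ℝ ∞ χ
  x0 : ∀ y, χ y ≠ 0 → |y - 1 / 2| ≤ 3 * u / 16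
  pS : ContDiff ℝ ∞ psi
  pp : ∀ (z : ℝ) (n : ℤ), psi (z + n) = psi z

/-- the control potential of the tube `j` -/
noncomputable def VS (u : ℝ) (χ β : ℝ → ℝ) (j : ℕ) (p : E 1) : ℝ :=
  ee j * ss u j ^ 2 * (((eta u j (p.1 1) p.2 / ss u j) ^ 2 / 2 * β (eta u j (p.1 1) p.2 / ss u j)) *
    χ (p.1 1))

/-- the kick potential of the tube `j` -/
noncomputable def VK (κ : ℕ) (b u : ℝ) (cb β psi : ℝ → ℝ) (j : ℕ) (p : E 1) : ℝ :=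
  aa κ j * (β (eta u j (p.1 1) p.2 / ss u j) * cb ((p.2 - tau j) / dd j) *
    psi (p.1 0 - b * p.1 1 - hf j))

/-- the region of the tube `j` -/
def Rg (u : ℝ) (j : ℕ) : Set (E 1) :=
  {p | |eta u j (p.1 1) p.2| ≤ 3 / 2 * ss u j ∧ |p.1 1 - 1 / 2| ≤ 3 * u / 16}

/-- [SHA] the shapes exist -/
def S_SHA : Prop := ∀ u : ℝ, 0 < u → u ≤ 1 → ∃ χ cb β psi : ℝ → ℝ,
  Sh u χ cb β psi ∧ Shp u χ (deriv psi) cb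

/-- [BND] summable bounds of all derivatives -/
def S_BND : Prop := ∀ (κ : ℕ) (b u : ℝ) (χ cb β psi : ℝ → ℝ), 0 < u → u ≤ 1 → Sh u χ cb β psi →
  (∀ j, ContDiff ℝ ∞ (VS u χ β j)) ∧ (∀ j, ContDiff ℝ ∞ (VK κ b u cb β psi j)) ∧
  (∀ n : ℕ, ∃ v : ℕ → ℝ, Summable v ∧ ∀ j p, ‖iteratedFDeriv ℝ n (VS u χ β j) p‖ ≤ v j) ∧
  ∀ n : ℕ, n ≤ κ → ∃ v : ℕ → ℝ, Summable v ∧
    ∀ j p, ‖iteratedFDeriv ℝ n (VK κ b u cb β psi j) p‖ ≤ v j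

/-- [GLU] sums of bumps with disjoint supports, periodic extension -/
def S_GLU : Prop := ∀ (N : ℕ∞) (κ : ℕ) (V : ℕ → E 1 → ℝ) (A : ℕ → Set (E 1)) (ε : ℝ),
  1 ≤ N → (κ : ℕ∞) ≤ N → 0 < ε → (∀ j, ContDiff ℝ N (V j)) → (∀ j p, V j p ≠ 0 → p ∈ A j) →
  (∀ j p, p ∈ A j → p.1 1 ∈ Icc (5 / 16 : ℝ) (11 / 16) ∧ p.2 ∈ Icc (-1 / 4 : ℝ) (3 / 8)) →
  (∀ j, IsClosed (A j)) → (∀ j j' p, j ≠ j' → p ∈ A j → p ∉ A j') →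
  (∀ j p (n : ℤ), V j (p + (Pi.single 0 (n : ℝ), 0)) = V j p) →
  (∀ n : ℕ, (n : ℕ∞) ≤ N → ∃ v : ℕ → ℝ, Summable v ∧
    ∀ j p, ‖iteratedFDeriv ℝ n (V j) p‖ ≤ v j) →
  ∃ j₁ : ℕ, ∀ j₀ : ℕ, j₁ ≤ j₀ → ∃ g : E 1 → ℝ, ContDiff ℝ N g ∧ Per g ∧ Smk κ g ε ∧
    (∀ p : E 1, (|p.1 1| ≤ 1 / 4 ∨ |p.1 1 - 1| ≤ 1 / 4) → fderiv ℝ g p = 0) ∧
    (∀ p : E 1, |p.1 1 - 1 / 2| ≤ 1 / 4 →
      (∀ (j : ℕ) (n : ℤ), j₀ ≤ j → (p.1, p.2 + n) ∉ A j) → fderiv ℝ g p = 0) ∧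
    (∀ j : ℕ, j₀ ≤ j → ∀ p ∈ A j, fderiv ℝ g p = fderiv ℝ (V j) p) ∧
    ((∀ (j : ℕ) (x x' y t : ℝ), V j (pt x y t) = V j (pt x' y t)) →
      ∀ x x' y t : ℝ, g (pt x y t) = g (pt x' y t))

/-- the tube potentials: the control potential `S` and the kick potential `K` -/
def S_POT : Prop := ∀ (κ : ℕ) (b u ε : ℝ), 2 ≤ κ → 0 < u → u ≤ 1 → 0 < ε →
  ∃ (j₀ : ℕ) (S K : E 1 → ℝ) (χ ps cb : ℝ → ℝ), 1 ≤ j₀ ∧ Shp u χ ps cb ∧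
    Sm S ∧ Smk κ S ε ∧ (∀ x x' y t : ℝ, S (pt x y t) = S (pt x' y t)) ∧
    ContDiff ℝ κ K ∧ Per K ∧ Smk κ K ε ∧
    (∀ x y t : ℝ, (|y| ≤ 1 / 4 ∨ |y - 1| ≤ 1 / 4) →
      dX 0 K (pt x y t) = 0 ∧ dX 1 K (pt x y t) = 0 ∧ dX 1 S (pt x y t) = 0) ∧
    ∀ j, j₀ ≤ j → ∀ x y t : ℝ, |y - 1 / 2| ≤ 1 / 4 → |eta u j y t| ≤ ss u j →
      dX 1 S (pt (x + b * y) y t) =
        ee j * (eta u j y t * χ y + eta u j y t ^ 2 / 2 * deriv χ y) ∧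
      dX 0 K (pt (x + b * y) y t) =
        aa κ j * cb ((t - tau j) / dd j) * ps (x - hf j) ∧
      dX 1 K (pt (x + b * y) y t) + b * dX 0 K (pt (x + b * y) y t) = 0

/-- [POT] assembly of the tube potentials -/
def S_POTA : Prop := S_SHA → S_BND → S_GLU → S_POT

/-- the environment of the tube potentials -/
def S_ENV : Prop := ∀ (κ : ℕ) (α γ b l c : ℝ) (k χ ps cb : ℝ → ℝ) (S K : E 1 → ℝ) (j₀ : ℕ),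
  2 ≤ κ → 0 < α → 0 < γ → 0 < l → l ≤ 1 / 2 → Prof k c → 1 ≤ j₀ → Shp (l * c) χ ps cb →
  Sm S → Smk κ S (1 / (16 * (1 + |b|) ^ 2)) → (∀ x x' y t : ℝ, S (pt x y t) = S (pt x' y t)) →
  ContDiff ℝ κ K → Per K → Smk κ K (1 / (16 * (1 + |b|) ^ 2)) →
  (∀ x y t : ℝ, (|y| ≤ 1 / 4 ∨ |y - 1| ≤ 1 / 4) →
    dX 0 K (pt x y t) = 0 ∧ dX 1 K (pt x y t) = 0 ∧ dX 1 S (pt x y t) = 0) →
  (∀ j, j₀ ≤ j → ∀ x y t : ℝ, |y - 1 / 2| ≤ 1 / 4 → |eta (l * c) j y t| ≤ ss (l * c) j →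
      dX 1 S (pt (x + b * y) y t) =
        ee j * (eta (l * c) j y t * χ y + eta (l * c) j y t ^ 2 / 2 * deriv χ y) ∧
      dX 0 K (pt (x + b * y) y t) =
        aa κ j * cb ((t - tau j) / dd j) * ps (x - hf j) ∧
      dX 1 K (pt (x + b * y) y t) + b * dX 0 K (pt (x + b * y) y t) = 0) →
  EnvOK (mkEnv κ α γ b l c k χ ps cb S K) j₀

/-- one unit of time in the box near the hyperbolic equilibrium -/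
def S_UNIT : Prop := ∀ (e : Env) (j₀ : ℕ), EnvOK e j₀ → ∃ r₀ C₁ C₂ ε₀ : ℝ,
  0 < r₀ ∧ r₀ ≤ 1 / 2 ∧ r₀ ≤ e.l / 32 ∧ 1 ≤ C₁ ∧ 1 ≤ C₂ ∧ 0 < ε₀ ∧
  ∀ (F : Fam) (a b T ε R Z K : ℝ), 0 < ε → ε ≤ ε₀ → Ctl e F ε a b T (T + 1) →
    C₁ * ε ≤ R → R ≤ r₀ → Z ≤ r₀ → 0 ≤ K → K * ε ≤ ε₀ → Box e F a b T R Z K →
    (∃ a' b' : ℝ, a ≤ a' ∧ b' ≤ b ∧ Box e F a' b' (T + 1) (Real.exp (e.l / 2) * R)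
      (Real.exp (-e.l) * Z + C₂ * ε) (Real.exp (-e.l / 4) * K + C₂ * ε)) ∧
    ∀ s ∈ Icc a b, |F.X s (T + 1) - F.X s T - F.J s T| ≤ C₂ * ε ∧
      ∀ t ∈ Icc T (T + 1), |F.w s t| ≤ 1 ∧ |F.J s t - F.J s T| ≤ C₂ * ε ^ (e.κ + 3)

/-- the waiting time in the box -/
def S_WAIT : Prop := ∀ (e : Env) (j₀ : ℕ), EnvOK e j₀ → ∃ r₀ r₁ C₁ C₃ ε₀ : ℝ,
  0 < r₁ ∧ r₁ ≤ r₀ ∧ r₀ ≤ 1 / 2 ∧ r₀ ≤ e.l / 32 ∧ 1 ≤ C₁ ∧ 1 ≤ C₃ ∧ 0 < ε₀ ∧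
  ∀ ε : ℝ, 0 < ε → ε ≤ ε₀ → ∃ (n : ℕ) (R : ℝ), r₁ ≤ R ∧ R ≤ r₀ ∧
    (n : ℝ) ≤ C₃ * Real.log (1 / ε) ∧
    ∀ (F : Fam) (P : ℝ → ℝ → ℝ → Prop) (C V₀ k₂ V a b T K : ℝ), C / V = ε → V₀ ≤ V → 1 ≤ k₂ →
      0 ≤ T → AE e F P C V₀ k₂ a b → Box e F a b T (C₁ * ε) r₀ K → 0 ≤ K → K * ε ≤ ε₀ →
      (∀ s ∈ Icc a b, P V s T ∧ V + 2 ≤ F.J s T) →
      ∃ a' b' : ℝ, a ≤ a' ∧ b' ≤ b ∧ Box e F a' b' (T + n) R (C₃ * ε) (C₃ * (√ε * K + ε)) ∧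
        ∀ s ∈ Icc a' b', |F.X s (T + n) - F.X s T - n * F.J s T| ≤ C₃ * n * ε ∧
          ∀ t ∈ Icc T (T + n), |F.J s t - F.J s T| ≤ C₃ * n * ε ^ (e.κ + 3) ∧ P V s t

/-- the loop: the path passes through the tube `j`, and its ends are driven to different sides of the
stable manifold -/
def S_LA : Prop := ∀ (e : Env) (j₀ : ℕ) (H : ℝ → ℝ), EnvOK e j₀ → Hom e H →
  ∀ (m : ℕ) (C C₁₀ : ℝ), 1 ≤ C → 1 ≤ C₁₀ → H (-m + 1) < 1 / 8 → 7 / 8 < H (m - 1) →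
  ∃ (j₁ : ℕ) (C₇ c₇ : ℝ), j₀ ≤ j₁ ∧ 1 ≤ C₇ ∧ 0 < c₇ ∧
    ∀ (j : ℕ) (F : Fam) (a b : ℝ) (T : ℕ) (ε : ℝ), j₁ ≤ j → 0 < ε → ε ≤ C₁₀ * qq j →
      Ent e H m j F a b T ε C → Thr e H m j F a b T C₇ ∧
      F.w a (T + 2 * m) + e.l * (F.Y a (T + 2 * m) - 1) ≤ -(c₇ * (ee j * ss (e.l * e.c) j)) ∧
      c₇ * (ee j * ss (e.l * e.c) j) ≤ F.w b (T + 2 * m) + e.l * (F.Y b (T + 2 * m) - 1)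

/-- the loop: after the passage through the tube the path is a Lipschitz graph over the unstable
coordinate -/
def S_LB : Prop := ∀ (e : Env) (j₀ : ℕ) (H : ℝ → ℝ), EnvOK e j₀ → Hom e H →
  ∀ m : ℕ, H (-m + 1) < 1 / 8 → 7 / 8 < H (m - 1) → ∃ (C₈ c₈ : ℝ), 1 ≤ C₈ ∧ 0 < c₈ ∧
  ∀ (C C₁₀ C₇ : ℝ), 1 ≤ C → 1 ≤ C₁₀ → 1 ≤ C₇ → ∃ j₁ : ℕ, j₀ ≤ j₁ ∧
    ∀ (j : ℕ) (F : Fam) (a b : ℝ) (T : ℕ) (ε K₁ : ℝ), j₁ ≤ j → 0 < ε →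
      ε ≤ C₁₀ * qq j → Ent e H m j F a b T ε C → Thr e H m j F a b T C₇ →
      0 ≤ K₁ → K₁ ≤ c₈ * ee j →
      (∀ s ∈ Icc a b, ∀ s' ∈ Icc a b, |ze e F s T - ze e F s' T| + |F.X s T - F.X s' T| +
        |F.J s T - F.J s' T| ≤ K₁ * |F.Y s T - F.Y s' T|) →
      ∀ s ∈ Icc a b, ∀ s' ∈ Icc a b,
        |ze e F s (T + 2 * m) - ze e F s' (T + 2 * m)| +
        e.l / 4 * |F.X s (T + 2 * m) - F.X s' (T + 2 * m)| +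
        |F.J s (T + 2 * m) - F.J s' (T + 2 * m)| ≤
        C₈ / ee j * |xi e F s (T + 2 * m) - xi e F s' (T + 2 * m)|

/-- the loop: the kick -/
def S_LC : Prop := ∀ (e : Env) (j₀ : ℕ) (H : ℝ → ℝ), EnvOK e j₀ → Hom e H →
  ∀ (m : ℕ) (C C₁₀ C₇ : ℝ), 1 ≤ C → 1 ≤ C₁₀ → 1 ≤ C₇ → H (-m + 1) < 1 / 8 → 7 / 8 < H (m - 1) →
  ∃ (j₁ : ℕ) (c₉ : ℝ), j₀ ≤ j₁ ∧ 0 < c₉ ∧
    ∀ (j : ℕ) (F : Fam) (a b : ℝ) (T : ℕ) (ε : ℝ), j₁ ≤ j → 0 < ε → ε ≤ C₁₀ * qq j →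
      Ent e H m j F a b T ε C → Thr e H m j F a b T C₇ →
      (∀ s ∈ Icc a b, |F.J s T| ≤ 2 * 2 ^ (j / 3) + 3 ∧ ∃ n : ℤ,
        F.X s T + F.J s T * (m + tau j) - hf j - n ∈ Icc (1 / 24 : ℝ) (7 / 8 - 1 / 24)) →
      ∀ s ∈ Icc a b, F.J s T + c₉ * (aa e.κ j * dd j) ≤ F.J s (T + 2 * m) ∧
        ∀ t ∈ Icc (T : ℝ) (T + 2 * m), |F.J s t - F.J s T| ≤ 1 ∧ |F.w s t| ≤ 1

/-- the numerical conditions in the block `i` -/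
structure Num (e : Env) (H : ℝ → ℝ) (m : ℕ) (C₁ r₀ r₁ C₃ C₇ c₇ C₈ c₈ c₉ V₀ ε : ℝ) (i n : ℕ) :
    Prop where
  eps : 0 < ε
  i4 : 4 ≤ i
  hV : V₀ ≤ (2 : ℝ) ^ i - 3
  n0 : C₃ * n * ε ^ (e.κ + 3) ≤ 1 / 4
  n1 : ∀ j, j / 3 = i → C₃ * n * ε ^ (e.κ + 3) ≤ c₉ / 2 * (aa e.κ j * dd j)
  n2 : 2 * C₈ / ee (3 * i) * (2 * (C₁ * ε)) ≤ 1 / 4
  n3 : C₃ * (√ε * (2 * C₈ / ee (3 * i)) + ε) ≤ 1 / 2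
  n3' : ∀ j, j / 3 = i → 16 * (C₃ * (√ε * (2 * C₈ / ee (3 * i)) + ε)) ≤ c₈ * ee j
  n4 : C₃ * ε ≤ r₁ / 2
  n5 : ∀ j, j / 3 = i →
    ss (e.l * e.c) j / (2 * (e.l * e.c)) ≤ 1 / 4 ∧ 0 < tau j ∧ tau j ≤ 1 / 2 ∧
      0 < ss (e.l * e.c) j ∧ 0 < ee j
  n6 : 4 / e.l * (2 * C₈ / ee (3 * i) * (2 * (C₁ * ε))) +
    n * (2 * C₈ / ee (3 * i) * (2 * (C₁ * ε))) +
    (m + 1) * (2 * C₈ / ee (3 * i) * (2 * (C₁ * ε)) + C₃ * n * ε ^ (e.κ + 3)) + C₃ * n * ε ≤ 1 / 96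
  n7 : ∀ j, j / 3 = i → C₁ * ε ≤ c₇ * (ee j * ss (e.l * e.c) j)
  n8 : ∀ j, j / 3 = i → C₇ * ss (e.l * e.c) j < H (m - 1) - 7 / 8 ∧
    C₇ * ss (e.l * e.c) j ≤ 1 / 8 ∧ 2 * e.l * (1 - H (m - 1)) + 2 * e.l * (C₇ * ss (e.l * e.c) j) +
    C₇ * (ee j * ss (e.l * e.c) j) ≤ r₀
  n9 : ∀ j, j / 3 = i → ∀ i', i ≤ i' → C₈ / ee j ≤ 2 * C₈ / ee (3 * i')
  n10 : ∀ i', i ≤ i' → 0 < ee (3 * i')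
  n11 : ∀ j, j / 3 = i → 0 < c₉ / 2 * (aa e.κ j * dd j)

/-- [NUM] the numerical conditions hold in all blocks which are large enough -/
def S_NUM : Prop := ∀ (e : Env) (j₀ : ℕ) (H : ℝ → ℝ), EnvOK e j₀ → Hom e H → ∀ m : ℕ,
  ∀ C₁ r₀ r₁ C₃ C₇ c₇ C₈ c₈ c₉ V₀ C ε₀ : ℝ, 1 ≤ C → 1 ≤ C₁ → 1 ≤ C₃ → 1 ≤ C₇ → 1 ≤ C₈ →
    0 < c₇ → 0 < c₈ → 0 < c₉ → 0 < r₀ → 0 < r₁ → 0 < ε₀ →
    7 / 8 < H (m - 1) → 1 - r₀ / (4 * e.l) < H (m - 1) →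
    ∀ᶠ i : ℕ in atTop, (∀ n : ℕ, (n : ℝ) ≤ C₃ * Real.log (1 / (C / ((2 : ℝ) ^ i - 3))) →
        Num e H m C₁ r₀ r₁ C₃ C₇ c₇ C₈ c₈ c₉ V₀ (C / ((2 : ℝ) ^ i - 3)) i n) ∧
      C / ((2 : ℝ) ^ i - 3) ≤ ε₀ ∧
      1 / 2 * (C / ((2 : ℝ) ^ i - 3)) + 2 * C₈ / ee (3 * i) * (C / ((2 : ℝ) ^ i - 3)) ≤ ε₀ ∧
      ∀ j, j / 3 = i → C / ((2 : ℝ) ^ i - 3) ≤ 8 * C * qq j

/-- one cycle: waiting, choice of the tube according to the phase, loop, restriction of the path -/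
def S_STEP : Prop := ∀ (e : Env) (j₀ : ℕ) (H : ℝ → ℝ), EnvOK e j₀ → Hom e H →
  ∃ (m : ℕ) (C₁ r₀ K₀ : ℝ), 1 ≤ m ∧ 1 ≤ C₁ ∧ 0 < r₀ ∧ r₀ ≤ 1 / 2 ∧ 1 ≤ K₀ ∧
  ∀ C V₀ : ℝ, 1 ≤ C → 1 ≤ V₀ → ∃ i₁ : ℕ, 2 ≤ i₁ ∧ ∀ i : ℕ, i₁ ≤ i → ∃ κ : ℝ, 0 < κ ∧
    ∀ (b : ℝ) (G : ℤ → Fam) (P : ℝ → ℝ → ℝ → Prop) (a c : ℝ) (T : ℕ) (N : ℤ) (J : ℝ),
      Shf b G → (∀ N, AE e (G N) P C V₀ (2 * m) a c) →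
      Good e (G N) P C C₁ r₀ K₀ i a c T J →
      ∃ (a' c' : ℝ) (T' i' : ℕ) (J' : ℝ), a ≤ a' ∧ c' ≤ c ∧ T < T' ∧ i ≤ i' ∧ J + κ ≤ J' ∧
        Good e (G (N + 1)) P C C₁ r₀ K₀ i' a' c' T' J' ∧
        ∀ s ∈ Icc a' c', ∀ t ∈ Icc (T : ℝ) T', P ((2 : ℝ) ^ i - 3) s t

/-- [STEP] one cycle: assembly -/
def S_STEPA : Prop := S_NUM → S_WAIT → S_LA → S_LB → S_LC → S_STEP

/-- infinite iteration -/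
def S_ITER : Prop := ∀ (Q : ℕ → ℤ → ℝ → ℝ → ℕ → ℝ → Prop) (P : ℝ → ℝ → ℝ → Prop) (i₁ : ℕ),
  (∀ i : ℕ, i₁ ≤ i → ∃ κ : ℝ, 0 < κ ∧ ∀ (N : ℤ) (a c : ℝ) (T : ℕ) (J : ℝ), Q i N a c T J →
    a ≤ c ∧ (2 : ℝ) ^ i ≤ J ∧ J < (2 : ℝ) ^ (i + 1) ∧ ∃ (a' c' : ℝ) (T' i' : ℕ) (J' : ℝ),
      a ≤ a' ∧ c' ≤ c ∧ T < T' ∧ i ≤ i' ∧ J + κ ≤ J' ∧ Q i' (N + 1) a' c' T' J' ∧
      ∀ s ∈ Icc a' c', ∀ t ∈ Icc (T : ℝ) T', P ((2 : ℝ) ^ i - 3) s t) →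
  ∀ (i : ℕ) (N : ℤ) (a c : ℝ) (T : ℕ) (J : ℝ), i₁ ≤ i → Q i N a c T J →
    ∃ s ∈ Icc a c, ∀ V : ℝ, ∃ T₁ : ℝ, ∀ t : ℝ, T₁ ≤ t → ∃ V' : ℝ, V ≤ V' ∧ P V' s t

/-- **The Hamilton-Jacobi equation to all orders.** -/
def S_HJ : Prop := ∀ (α γ b : ℝ) (Fh : E 1 → ℝ) (N : ℕ), Sm Fh →
  ∃ σ₁ h ρ : PP → ℝ, SP σ₁ ∧ SP h ∧ SP ρ ∧ (∀ z, pd vx h z = 0) ∧
    (1 ≤ N → ∀ (p : E 1) (W : ℝ), h (p, 0, W) = -av Fh p) ∧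
    ∀ z, resid α γ b Fh σ₁ h z = z.2.1 ^ N * ρ z

/-- [HAD] smooth periodic functions: Hadamard's lemma in `δ` and for shifts by `δ g` in the direction
`v`, averages and antiderivatives in the direction of the fast variable -/
def S_HAD : Prop :=
  (∀ a : PP → ℝ, SP a → ∃ c : PP → ℝ, SP c ∧ ∀ z : PP, a z = a (z.1, 0, z.2.2) + z.2.1 * c z) ∧
  (∀ (a g g' : PP → ℝ) (v : PP), SP a → SP g → SP g' → ∃ c : PP → ℝ, SP c ∧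
    ∀ z : PP, a (z + (z.2.1 * g' z) • v) = a (z + (z.2.1 * g z) • v) + z.2.1 * (g' z - g z) * c z) ∧
  (∀ a : PP → ℝ, SP a → (∀ z : PP, a z = a (z.1, 0, z.2.2)) → ∃ A B : PP → ℝ, SP A ∧ SP B ∧
    (∀ z, A z = A (z.1, 0, z.2.2)) ∧ (∀ z, B z = B (z.1, 0, z.2.2)) ∧
    (∀ z, pd vx A z = 0) ∧ (∀ z, pd vx B z = a z - A z) ∧
    ∀ (F : E 1 → ℝ) (c : ℝ), (∀ z : PP, a z = c * F z.1) → ∀ z : PP, A z = c * av F z.1)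

/-- **The momenta as functions of the velocities.** For a generating function `σ = δ σ₁` the
functions `Jf` (`= P`) and `wf` (`= W`) of the velocities `v`, `q` and of `p` satisfy
`v = P + α ∂σ/∂x`, `q = W + γ ∂σ/∂y`, for `v ≥ V₀`, `|q| ≤ R`. -/
structure Inv (α γ b R : ℝ) (σ₁ : PP → ℝ) (Jf wf : ℝ → ℝ → E 1 → ℝ) (C V₀ : ℝ) : Prop where
  near : NearId Jf wf C V₀
  eqs : ∀ v q p, V₀ ≤ v → |q| ≤ R → |Jf v q p - v| ≤ C / v ∧ |wf v q p - q| ≤ C / v ∧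
    v = Jf v q p + α * pd vx (dl σ₁) (p, 1 / Jf v q p, wf v q p) ∧
    q = wf v q p + γ * pd (vy b) (dl σ₁) (p, 1 / Jf v q p, wf v q p)
  dif : ∀ (v q p₀ p₁ : ℝ → ℝ) (t : ℝ), V₀ < v t → |q t| < R → DifferentiableAt ℝ v t →
    DifferentiableAt ℝ q t → DifferentiableAt ℝ p₀ t → DifferentiableAt ℝ p₁ t →
    DifferentiableAt ℝ (fun t => Jf (v t) (q t) (pt (p₀ t) (p₁ t) t)) t ∧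
    DifferentiableAt ℝ (fun t => wf (v t) (q t) (pt (p₀ t) (p₁ t) t)) t
  cts : ContinuousOn (fun z : ℝ × ℝ × E 1 => (Jf z.1 z.2.1 z.2.2, wf z.1 z.2.1 z.2.2))
    {z | V₀ ≤ z.1 ∧ |z.2.1| ≤ R}

/-- [INV] -/
def S_INV : Prop := ∀ (α γ b R : ℝ) (σ₁ : PP → ℝ), 2 ≤ R → SP σ₁ →
  ∃ (Jf wf : ℝ → ℝ → E 1 → ℝ) (C V₀ : ℝ), 1 ≤ C ∧ 2 * C ≤ V₀ ∧ Inv α γ b R σ₁ Jf wf C V₀

noncomputable def a11 (σ₁ : PP → ℝ) (z : PP) : ℝ := -(z.2.1 ^ 2 * pd vd (pd vx (dl σ₁)) z)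
noncomputable def a12 (σ₁ : PP → ℝ) (z : PP) : ℝ := pd vw (pd vx (dl σ₁)) z
noncomputable def a21 (b : ℝ) (σ₁ : PP → ℝ) (z : PP) : ℝ :=
  -(z.2.1 ^ 2 * pd vd (pd (vy b) (dl σ₁)) z)
noncomputable def a22 (b : ℝ) (σ₁ : PP → ℝ) (z : PP) : ℝ := pd vw (pd (vy b) (dl σ₁)) z

/-- the determinant -/
noncomputable def dt (α γ b : ℝ) (σ₁ : PP → ℝ) (z : PP) : ℝ :=
  (1 / α + a11 σ₁ z) * (1 / γ + a22 b σ₁ z) - a12 σ₁ z * a21 b σ₁ z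

/-- the derivative of `P` along the solutions; `kx`, `kz` are the derivatives of the kick potential in
the directions of `x` and `y` -/
noncomputable def PJ (α γ b : ℝ) (N : ℕ) (σ₁ ρ : PP → ℝ) (z : PP) (kx kz : ℝ) : ℝ :=
  ((1 / γ + a22 b σ₁ z) * (kx - z.2.1 ^ N * pd vx ρ z) -
    a12 σ₁ z * (kz - z.2.1 ^ N * pd (vy b) ρ z)) / dt α γ b σ₁ z

/-- the derivative of `W` along the solutions -/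
noncomputable def WJ (α γ b : ℝ) (N : ℕ) (σ₁ h ρ : PP → ℝ) (z : PP) (kx kz : ℝ) : ℝ :=
  -(γ * pd (vy b) h (z + (γ * pd vw (dl σ₁) z) • vy b)) +
  ((1 / α + a11 σ₁ z) * (kz - z.2.1 ^ N * pd (vy b) ρ z) -
    a21 b σ₁ z * (kx - z.2.1 ^ N * pd vx ρ z)) / dt α γ b σ₁ z

/-- [AVA] the derivatives of the momenta along the solutions -/
def S_AVA : Prop := ∀ (α γ b R C V₀ : ℝ) (Fh : E 1 → ℝ) (N : ℕ) (σ₁ h ρ : PP → ℝ)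
  (Jf wf : ℝ → ℝ → E 1 → ℝ), 0 < α → 0 < γ → Sm Fh → SP σ₁ → SP h → SP ρ →
  (∀ z, pd vx h z = 0) → (∀ z, resid α γ b Fh σ₁ h z = z.2.1 ^ N * ρ z) →
  1 ≤ C → 2 * C ≤ V₀ → Inv α γ b R σ₁ Jf wf C V₀ →
  ∀ (K f : E 1 → ℝ), (∀ p, dX 0 f p = dX 0 Fh p + dX 0 K p ∧ dX 1 f p = dX 1 Fh p + dX 1 K p) →
    ∀ p₀ p₁ v q : ℝ → ℝ, Tr α γ b f p₀ p₁ v q → ∀ t : ℝ, V₀ < v t → |q t| < R →
      ∀ z : PP, z = (pt (p₀ t) (p₁ t) t, 1 / Jf (v t) (q t) (pt (p₀ t) (p₁ t) t),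
        wf (v t) (q t) (pt (p₀ t) (p₁ t) t)) → dt α γ b σ₁ z ≠ 0 →
      HasDerivAt (fun t => Jf (v t) (q t) (pt (p₀ t) (p₁ t) t))
        (PJ α γ b N σ₁ ρ z (dX 0 K z.1) (dX 1 K z.1 + b * dX 0 K z.1)) t ∧
      HasDerivAt (fun t => wf (v t) (q t) (pt (p₀ t) (p₁ t) t))
        (WJ α γ b N σ₁ h ρ z (dX 0 K z.1) (dX 1 K z.1 + b * dX 0 K z.1)) t

/-- [AVL] bounds and Lipschitz bounds of the error terms; `g₀ p = - ∂h/∂y (p, 0, W)` -/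
def S_AVL : Prop := ∀ (κ : ℕ) (α γ b R : ℝ) (σ₁ h ρ : PP → ℝ) (g₀ : E 1 → ℝ), 0 < α → 0 < γ →
  SP σ₁ → SP h → SP ρ → (∀ (p : E 1) (W : ℝ), pd (vy b) h (p, 0, W) = -g₀ p) →
  ∃ C V₀ : ℝ, 1 ≤ C ∧ 1 ≤ V₀ ∧ ∀ (V P P' W W' kx kz kx' kz' : ℝ) (p p' : E 1),
    V₀ ≤ V → V / 2 ≤ P → V / 2 ≤ P' → |W| ≤ R → |W'| ≤ R → |kx| ≤ 2 + |b| → |kz| ≤ 2 + |b| →
    |kx'| ≤ 2 + |b| → |kz'| ≤ 2 + |b| → p.2 = p'.2 →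
    dt α γ b σ₁ (p, 1 / P, W) ≠ 0 ∧
    |α * pd vx (dl σ₁) (p, 1 / P, W)| ≤ C / V ∧ |γ * pd (vy b) (dl σ₁) (p, 1 / P, W)| ≤ C / V ∧
    |PJ α γ b (κ + 3) σ₁ ρ (p, 1 / P, W) kx kz - α * kx| ≤
      (C / V) ^ (κ + 3) + C / V * (|kx| + |kz|) ∧
    |WJ α γ b (κ + 3) σ₁ h ρ (p, 1 / P, W) kx kz - γ * (g₀ p + kz)| ≤ C / V ∧
    |α * pd vx (dl σ₁) (p, 1 / P, W) - α * pd vx (dl σ₁) (p', 1 / P', W')| ≤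
      C / V * (|p.1 0 - p'.1 0| + |p.1 1 - p'.1 1| + |P - P'| + |W - W'|) ∧
    |γ * pd (vy b) (dl σ₁) (p, 1 / P, W) - γ * pd (vy b) (dl σ₁) (p', 1 / P', W')| ≤
      C / V * (|p.1 0 - p'.1 0| + |p.1 1 - p'.1 1| + |P - P'| + |W - W'|) ∧
    |(PJ α γ b (κ + 3) σ₁ ρ (p, 1 / P, W) kx kz - α * kx) -
      (PJ α γ b (κ + 3) σ₁ ρ (p', 1 / P', W') kx' kz' - α * kx')| ≤
      C / V * (|p.1 0 - p'.1 0| + |p.1 1 - p'.1 1| + |P - P'| + |W - W'| + |kx - kx'| +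
        |kz - kz'|) ∧
    |(WJ α γ b (κ + 3) σ₁ h ρ (p, 1 / P, W) kx kz - γ * (g₀ p + kz)) -
      (WJ α γ b (κ + 3) σ₁ h ρ (p', 1 / P', W') kx' kz' - γ * (g₀ p' + kz'))| ≤
      C / V * (|p.1 0 - p'.1 0| + |p.1 1 - p'.1 1| + |P - P'| + |W - W'| + |kx - kx'| +
        |kz - kz'|)

/-- averaging: the adiabatic invariant and the corrected slow velocity -/
def S_AVE : Prop := ∀ (κ : ℕ) (α γ b l c k₂ : ℝ) (k : ℝ → ℝ) (F S : E 1 → ℝ),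
  0 < α → 0 < γ → 0 < l → l ≤ 1 / 2 → 0 ≤ k₂ → Prof k c → Sm F → (∀ p, av F p = 0) → Sm S →
  (∀ x x' y t : ℝ, S (pt x y t) = S (pt x' y t)) →
  ∃ (Jf wf : ℝ → ℝ → E 1 → ℝ) (C V₀ : ℝ), 1 ≤ C ∧ 1 ≤ V₀ ∧ NearId Jf wf C V₀ ∧
    ∀ (K f : E 1 → ℝ) (χ ps cb : ℝ → ℝ), ContDiff ℝ 2 K → Per K → Small K 1 →
      (∀ p, dX 0 f p = dX 0 F p + dX 0 K p ∧
        dX 1 f p = dX 1 F p + l ^ 2 / γ * k (p.1 1) * deriv k (p.1 1) + dX 1 S p + dX 1 K p) →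
      ∀ p₀ p₁ v q : ℝ → ℝ → ℝ, (∀ s, Tr α γ b f (p₀ s) (p₁ s) (v s) (q s)) →
        (∀ t, Continuous (fun s => p₀ s t) ∧ Continuous (fun s => p₁ s t) ∧
          Continuous (fun s => v s t) ∧ Continuous (fun s => q s t)) →
        ∀ (N : ℤ) (a₁ a₂ : ℝ), AE (mkEnv κ α γ b l c k χ ps cb S K) (mkFam b Jf wf p₀ p₁ v q N)
          (Pv v q) C V₀ k₂ a₁ a₂

/-- [AVB] -/
def S_AVB : Prop := S_HJ → S_INV → S_AVA → S_AVL → S_AVE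

/-- the initial path -/
def S_START : Prop := ∀ (e : Env) (j₀ : ℕ) (b C' V' C C₁ r₀ K₀ : ℝ) (Jf wf : ℝ → ℝ → E 1 → ℝ),
  EnvOK e j₀ → 1 ≤ C' → 1 ≤ V' → NearId Jf wf C' V' → 1 ≤ C → 1 ≤ C₁ → 0 < r₀ → 1 ≤ K₀ →
  ∃ i₂ : ℕ, ∀ (i : ℕ) (p₀ p₁ v q : ℝ → ℝ → ℝ), i₂ ≤ i →
    (∀ s, p₀ s 0 = b * s ∧ p₁ s 0 = s ∧ v s 0 = (2 : ℝ) ^ i + 1 ∧ q s 0 = e.l * s) →
    ∃ a c J : ℝ, -1 ≤ a ∧ c ≤ 1 ∧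
      Good e (mkFam b Jf wf p₀ p₁ v q 0) (Pv v q) C C₁ r₀ K₀ i a c 0 J

/-- the theorem in adapted coordinates -/
def S_CT : Prop := ∀ (κ : ℕ) (A : Matrix (Fin (1 + 1)) (Fin (1 + 1)) ℝ) (h : E 1 → ℝ) (ε : ℝ),
  2 ≤ κ → 0 < ε → A.PosDef → Sm h → (∀ p q : E 1, p.2 = q.2 → av h p = av h q) →
  ∃ (g : E 1 → ℝ) (γ : ℝ → Q 1), ContDiff ℝ κ g ∧ Per g ∧ Smk κ g ε ∧
    Sol A (fun p => h p + g p) γ univ ∧ Tendsto (deriv fun s => γ s 0) atTop atTop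

/-- smoothing -/
def S_MOL : Prop := ∀ (κ m : ℕ) (f : E m → ℝ) (ε : ℝ), 0 < ε → ContDiff ℝ κ f → Per f →
  ∃ h : E m → ℝ, Sm h ∧ Smk κ (fun p => h p - f p) ε

/-- removal of the average along a long closed geodesic -/
def S_AVG : Prop := ∀ (κ m : ℕ) (h : E m → ℝ) (ε : ℝ), 0 < ε → Sm h →
  ∃ (M : ℕ) (h₂ : E m → ℝ), Sm h₂ ∧ Smk κ (fun p => h₂ p - h p) ε ∧
    ∀ p q : E m, p.2 = q.2 →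
      ∫ s in (0 : ℝ)..1, h₂ (p.1 + s • om m M, p.2) =
      ∫ s in (0 : ℝ)..1, h₂ (q.1 + s • om m M, q.2)

/-- the theorem -/
def S_FIN : Prop := ∀ (κ : ℕ) (A : Matrix (Fin (1 + 1)) (Fin (1 + 1)) ℝ) (f₀ : E 1 → ℝ) (ε : ℝ),
  2 ≤ κ → 0 < ε → A.PosDef → ContDiff ℝ κ f₀ → Per f₀ →
  ∃ (f : E 1 → ℝ) (γ : ℝ → Q 1), ContDiff ℝ κ f ∧ Per f ∧ Smk κ (fun p => f p - f₀ p) ε ∧
    Sol A f γ univ ∧ ∀ V : ℝ, ∀ᶠ t : ℝ in atTop, ∃ i, V ≤ |deriv (fun s => γ s i) t|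

/-- reduction to adapted coordinates -/
def S_RED : Prop := S_MOL → S_AVG → S_CT → S_FIN

end Pool.Agent.Helper69.EK
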